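import Mathlib

/-!
# Second moments of three families of character sums

For an odd prime `p` and the quadratic character `χ` of the field with `p` elements we study
`T a = ∑ χ(x ^ 3 + a x)`, `U a = ∑ χ(x ^ 3 + a)` and `B = ∑ χ((x + 2)(x ^ 2 - 2))`, which are (up
to sign) the traces of elliptic curves with complex multiplication by the fourth roots of unity,
the third roots of unity and the square root of `-2`. Elementary averaging (Jacobsthal) gives
`4 p - (T a) ^ 2 = G ^ 2`, `3 (4 p - (U a) ^ 2) = H ^ 2` and `2 (4 p - B ^ 2) = F ^ 2`, so the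
squares of these traces are pairwise different. Used for `MP_09b6ec_lc`.
-/

namespace Pool.Agent.Lib.IsoFib.CM

open Finset

variable {p : ℕ} [Fact p.Prime]

theorem sum_zero (h2 : p ≠ 2) : ∑ x : ZMod p, quadraticChar (ZMod p) x = 0 := by
  apply quadraticChar_sum_zero
  rwa [ZMod.ringChar_zmod_n]

/-- number of square roots -/
theorem card_sq (h2 : p ≠ 2) (a : ZMod p) :
    ((univ.filter fun t : ZMod p => t ^ 2 = a).card : ℤ) = 1 + quadraticChar (ZMod p) a := by
  have h : ringChar (ZMod p) ≠ 2 := by rwa [ZMod.ringChar_zmod_n]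
  have := quadraticChar_card_sqrts h a
  rw [add_comm, ← this]
  congr 2
  ext t
  simp

theorem sum_sq (h2 : p ≠ 2) (f : ZMod p → ℤ) :
    ∑ t : ZMod p, f (t ^ 2) = ∑ a : ZMod p, f a * (1 + quadraticChar (ZMod p) a) := by
  rw [← Finset.sum_fiberwise_of_maps_to (g := fun t : ZMod p => t ^ 2) (t := univ)
    (fun _ _ => mem_univ _)]
  apply Finset.sum_congr rfl
  intro a _
  rw [← card_sq h2 a, Finset.sum_congr rfl (g := fun _ => f a)]
  · rw [Finset.sum_const, nsmul_eq_mul, mul_comm]
  · intro t ht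
    rw [(Finset.mem_filter.mp ht).2]

theorem sum_shift_zero (h2 : p ≠ 2) (u : ZMod p) : ∑ x : ZMod p, quadraticChar (ZMod p) (x + u) = 0 := by
  rw [← sum_zero h2]
  exact Fintype.sum_equiv (Equiv.addRight u) _ _ (fun x => rfl)

theorem sum_lin_zero (h2 : p ≠ 2) {a : ZMod p} (ha : a ≠ 0) (b : ZMod p) :
    ∑ x : ZMod p, quadraticChar (ZMod p) (a * x + b) = 0 := by
  rw [← sum_shift_zero h2 b]
  exact Fintype.sum_equiv (Equiv.mulLeft₀ a ha) _ _ (fun x => rfl)

theorem sum_ne_zero_eq (f : ZMod p → ℤ) :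
    ∑ x : ZMod p, f x = f 0 + ∑ x : (ZMod p)ˣ, f x := by
  rw [← Finset.sum_erase_add univ f (mem_univ (0 : ZMod p)), add_comm]
  congr 1
  symm
  apply Finset.sum_bij (fun (x : (ZMod p)ˣ) _ => (x : ZMod p))
  · intro x _
    simp
  · intro x _ y _ h
    exact Units.ext h
  · intro x hx
    have hx0 : x ≠ 0 := (Finset.mem_erase.mp hx).1
    exact ⟨Units.mk0 x hx0, mem_univ _, rfl⟩
  · intro x _
    rfl

theorem chi_sq {x : ZMod p} (hx : x ≠ 0) : quadraticChar (ZMod p) x * quadraticChar (ZMod p) x = 1 := by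
  have := quadraticChar_sq_one hx
  rwa [pow_two] at this

theorem chi_mul_sq {x : ZMod p} (hx : x ≠ 0) (y : ZMod p) : quadraticChar (ZMod p) (x ^ 2 * y) = quadraticChar (ZMod p) y := by
  rw [map_mul, quadraticChar_sq_one' hx, one_mul]

theorem chi_inv (x : ZMod p) : quadraticChar (ZMod p) (x⁻¹) = quadraticChar (ZMod p) x := by
  by_cases hx : x = 0
  · rw [hx, inv_zero]
  · have : x⁻¹ = (x⁻¹) ^ 2 * x := by field_simp
    rw [this, chi_mul_sq (inv_ne_zero hx)]

/-- the basic quadratic sum -/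
theorem sum_quad (h2 : p ≠ 2) (u v : ZMod p) :
    ∑ a : ZMod p, quadraticChar (ZMod p) ((a + u) * (a + v)) = (if u = v then (p : ℤ) else 0) - 1 := by
  by_cases huv : u = v
  · subst huv
    rw [if_pos rfl]
    have h1 : ∑ a : ZMod p, quadraticChar (ZMod p) ((a + u) * (a + u)) = ∑ a : ZMod p, quadraticChar (ZMod p) (a * a) :=
      Fintype.sum_equiv (Equiv.addRight u) _ _ (fun x => rfl)
    rw [h1, sum_ne_zero_eq]
    have h3 : ∀ x : (ZMod p)ˣ, quadraticChar (ZMod p) ((x : ZMod p) * x) = 1 := by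
      intro x
      rw [map_mul]
      exact chi_sq x.ne_zero
    rw [mul_zero, MulChar.map_zero, zero_add]
    simp only [h3, Finset.sum_const, Finset.card_univ,
      ZMod.card_units_eq_totient, Nat.totient_prime Fact.out]
    have := (Fact.out : p.Prime).one_lt
    simp
    try omega
  · rw [if_neg huv]
    have hw : u - v ≠ 0 := sub_ne_zero.mpr huv
    have h1 : ∑ a : ZMod p, quadraticChar (ZMod p) ((a + u) * (a + v)) = ∑ a : ZMod p, quadraticChar (ZMod p) ((a + (u - v)) * a) := by
      refine Fintype.sum_equiv (Equiv.addRight v) _ _ (fun x => ?_)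
      simp only [Equiv.coe_addRight]
      congr 2
      ring
    rw [h1, sum_ne_zero_eq]
    have h3 : ∀ x : (ZMod p)ˣ, quadraticChar (ZMod p) (((x : ZMod p) + (u - v)) * x) =
        quadraticChar (ZMod p) ((u - v) * ((x⁻¹ : (ZMod p)ˣ) : ZMod p) + 1) := by
      intro x
      rw [← chi_mul_sq x.ne_zero ((u - v) * ((x⁻¹ : (ZMod p)ˣ) : ZMod p) + 1)]
      congr 1
      have hx := x.ne_zero
      rw [Units.val_inv_eq_inv_val]
      field_simp
      ring
    have h4 : ∑ x : (ZMod p)ˣ, quadraticChar (ZMod p) ((u - v) * ((x⁻¹ : (ZMod p)ˣ) : ZMod p) + 1) =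
        ∑ x : (ZMod p)ˣ, quadraticChar (ZMod p) ((u - v) * (x : ZMod p) + 1) :=
      Fintype.sum_equiv (Equiv.inv _) _ _ (fun x => rfl)
    have h5 := sum_lin_zero h2 hw 1
    rw [sum_ne_zero_eq] at h5
    simp only [mul_zero, zero_add, map_one] at h5
    simp only [h3]
    rw [h4, mul_zero, MulChar.map_zero, zero_add, zero_sub]
    linarith

theorem sum_sq_add (h2 : p ≠ 2) {c : ZMod p} (hc : c ≠ 0) :
    ∑ t : ZMod p, quadraticChar (ZMod p) (t ^ 2 + c) = -1 := by
  rw [sum_sq h2 (fun a => quadraticChar (ZMod p) (a + c))]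
  have h1 : ∀ a : ZMod p, quadraticChar (ZMod p) (a + c) * (1 + quadraticChar (ZMod p) a) = quadraticChar (ZMod p) (a + c) + quadraticChar (ZMod p) ((a + c) * (a + 0)) := by
    intro a
    rw [map_mul, add_zero]
    ring
  rw [Finset.sum_congr rfl (fun a _ => h1 a), Finset.sum_add_distrib, sum_shift_zero h2,
    sum_quad h2, if_neg hc]
  simp

/-- a sum over the multiplicative group along a generator -/
theorem sum_gen {g : (ZMod p)ˣ} (hg : ∀ x, x ∈ Subgroup.zpowers g) (f : (ZMod p)ˣ → ℤ) :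
    ∑ x : (ZMod p)ˣ, f x = ∑ k ∈ range (p - 1), f (g ^ k) := by
  have h1 := IsCyclic.image_range_card hg
  have hc : Nat.card (ZMod p)ˣ = p - 1 := by
    rw [Nat.card_eq_fintype_card, ZMod.card_units_eq_totient, Nat.totient_prime Fact.out]
  rw [hc] at h1
  rw [← h1, Finset.sum_image]
  intro i hi j hj hij
  have ho : orderOf g = p - 1 := by
    rw [← hc]
    exact orderOf_eq_card_of_forall_mem_zpowers hg
  have hi' : i < orderOf g := by rw [ho]; exact Finset.mem_range.mp (by simpa using hi)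
  have hj' : j < orderOf g := by rw [ho]; exact Finset.mem_range.mp (by simpa using hj)
  exact pow_injOn_Iio_orderOf hi' hj' hij

theorem sum_periodic (h : ℕ → ℤ) (m : ℕ) (hp : ∀ k, h (k + m) = h k) (n : ℕ) :
    ∑ k ∈ range (m * n), h k = n * ∑ k ∈ range m, h k := by
  induction n with
  | zero => simp
  | succ n ih =>
    have h1 : ∀ n k, h (m * n + k) = h k := by
      intro n
      induction n with
      | zero => simp
      | succ n ih =>
        intro k
        rw [show m * (n + 1) + k = (m * n + k) + m by ring, hp, ih]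
    rw [show m * (n + 1) = m * n + m by ring, Finset.sum_range_add, ih,
      Finset.sum_congr rfl (fun k _ => h1 n k)]
    push_cast
    ring

theorem exists_gen : ∃ g : (ZMod p)ˣ, ∀ x, x ∈ Subgroup.zpowers g :=
  IsCyclic.exists_generator

theorem chi_gen (h2 : p ≠ 2) {g : (ZMod p)ˣ} (hg : ∀ x, x ∈ Subgroup.zpowers g) :
    quadraticChar (ZMod p) (g : ZMod p) = -1 := by
  rcases quadraticChar_dichotomy g.ne_zero with h | h
  · exfalso
    have h1 : ∀ x : (ZMod p)ˣ, quadraticChar (ZMod p) (x : ZMod p) = 1 := by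
      intro x
      obtain ⟨k, hk⟩ := Subgroup.mem_zpowers_iff.mp (hg x)
      have : (MulChar.toUnitHom (quadraticChar (ZMod p)) x) = 1 := by
        rw [← hk, map_zpow]
        have : MulChar.toUnitHom (quadraticChar (ZMod p)) g = 1 := by
          apply Units.ext
          rw [MulChar.coe_toUnitHom, h]
          rfl
        rw [this, one_zpow]
      rw [← MulChar.coe_toUnitHom, this]
      rfl
    have h3 := sum_zero (p := p) h2
    rw [sum_ne_zero_eq, MulChar.map_zero, zero_add] at h3
    simp only [h1, Finset.sum_const, Finset.card_univ,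
      ZMod.card_units_eq_totient, Nat.totient_prime Fact.out] at h3
    have := (Fact.out : p.Prime).one_lt
    simp at h3
    omega
  · exact h


/-! ### The three sums -/

/-- trace (up to sign) of `y ^ 2 = x ^ 3 + a x` -/
def T (p : ℕ) [Fact p.Prime] (a : ZMod p) : ℤ := ∑ x : ZMod p, quadraticChar (ZMod p) (x ^ 3 + a * x)

/-- trace (up to sign) of `y ^ 2 = x ^ 3 + a` -/
def U (p : ℕ) [Fact p.Prime] (a : ZMod p) : ℤ := ∑ x : ZMod p, quadraticChar (ZMod p) (x ^ 3 + a)

/-- Jacobsthal sum of order four -/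
def V (p : ℕ) [Fact p.Prime] (a : ZMod p) : ℤ :=
  ∑ x : ZMod p, quadraticChar (ZMod p) (x * (x ^ 4 + a))

/-- trace (up to sign) of `y ^ 2 = (x + 2) (x ^ 2 - 2)` -/
def B (p : ℕ) [Fact p.Prime] : ℤ :=
  ∑ x : ZMod p, quadraticChar (ZMod p) ((x + 2) * (x ^ 2 - 2))

theorem T_scale {t : ZMod p} (ht : t ≠ 0) (a : ZMod p) : T p (t ^ 2 * a) = quadraticChar (ZMod p) t * T p a := by
  unfold T
  rw [Finset.mul_sum]
  rw [← Fintype.sum_equiv (Equiv.mulLeft₀ t ht)
    (fun x => quadraticChar (ZMod p) ((t * x) ^ 3 + t ^ 2 * a * (t * x))) _ (fun x => rfl)]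
  apply Finset.sum_congr rfl
  intro x _
  have : (t * x) ^ 3 + t ^ 2 * a * (t * x) = t ^ 2 * (t * (x ^ 3 + a * x)) := by ring
  rw [this, chi_mul_sq ht, map_mul]

theorem U_scale {t : ZMod p} (ht : t ≠ 0) (a : ZMod p) : U p (t ^ 3 * a) = quadraticChar (ZMod p) t * U p a := by
  unfold U
  rw [Finset.mul_sum]
  rw [← Fintype.sum_equiv (Equiv.mulLeft₀ t ht)
    (fun x => quadraticChar (ZMod p) ((t * x) ^ 3 + t ^ 3 * a)) _ (fun x => rfl)]
  apply Finset.sum_congr rfl
  intro x _
  have : (t * x) ^ 3 + t ^ 3 * a = t ^ 2 * (t * (x ^ 3 + a)) := by ring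
  rw [this, chi_mul_sq ht, map_mul]

theorem V_scale {t : ZMod p} (ht : t ≠ 0) (a : ZMod p) : V p (t ^ 4 * a) = quadraticChar (ZMod p) t * V p a := by
  unfold V
  rw [Finset.mul_sum]
  rw [← Fintype.sum_equiv (Equiv.mulLeft₀ t ht)
    (fun x => quadraticChar (ZMod p) ((t * x) * ((t * x) ^ 4 + t ^ 4 * a))) _ (fun x => rfl)]
  apply Finset.sum_congr rfl
  intro x _
  have : (t * x) * ((t * x) ^ 4 + t ^ 4 * a) = (t ^ 2) ^ 2 * (t * (x * (x ^ 4 + a))) := by ring
  rw [this, chi_mul_sq (pow_ne_zero 2 ht), map_mul]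

theorem V_inv {a : ZMod p} (ha : a ≠ 0) : V p a = quadraticChar (ZMod p) a * V p a⁻¹ := by
  unfold V
  rw [sum_ne_zero_eq, sum_ne_zero_eq (fun x => quadraticChar (ZMod p) (x * (x ^ 4 + a⁻¹)))]
  simp only [zero_mul, MulChar.map_zero, zero_add]
  rw [Finset.mul_sum]
  refine Fintype.sum_equiv (Equiv.inv _) _ _ (fun x => ?_)
  simp only [Equiv.inv_apply, Units.val_inv_eq_inv_val]
  have hx := x.ne_zero
  rw [← map_mul]
  have : (x : ZMod p) * ((x : ZMod p) ^ 4 + a) =
      ((x : ZMod p) ^ 3) ^ 2 * (a * ((x : ZMod p)⁻¹ * ((x : ZMod p)⁻¹ ^ 4 + a⁻¹))) := by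
    field_simp
    ring
  rw [this, chi_mul_sq (pow_ne_zero 3 hx)]

/-- second moments: a general form -/
theorem second_moment (h2 : p ≠ 2) (w h : ZMod p → ZMod p) :
    ∑ a : ZMod p, (∑ x : ZMod p, quadraticChar (ZMod p) (w x * (h x + a))) ^ 2 =
      p * (∑ x : ZMod p, ∑ y : ZMod p, if h x = h y then quadraticChar (ZMod p) (w x) * quadraticChar (ZMod p) (w y) else 0) -
        (∑ x : ZMod p, quadraticChar (ZMod p) (w x)) ^ 2 := by
  have h1 : ∀ a : ZMod p, (∑ x : ZMod p, quadraticChar (ZMod p) (w x * (h x + a))) ^ 2 =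
      ∑ x : ZMod p, ∑ y : ZMod p, quadraticChar (ZMod p) (w x) * quadraticChar (ZMod p) (w y) * quadraticChar (ZMod p) ((a + h x) * (a + h y)) := by
    intro a
    rw [pow_two, Finset.sum_mul_sum]
    apply Finset.sum_congr rfl
    intro x _
    apply Finset.sum_congr rfl
    intro y _
    rw [map_mul, map_mul, map_mul, add_comm (h x), add_comm (h y)]
    ring
  rw [Finset.sum_congr rfl (fun a _ => h1 a), Finset.sum_comm]
  have h3 : ∀ x : ZMod p, ∑ a : ZMod p, ∑ y : ZMod p,
      quadraticChar (ZMod p) (w x) * quadraticChar (ZMod p) (w y) * quadraticChar (ZMod p) ((a + h x) * (a + h y)) =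
      ∑ y : ZMod p, quadraticChar (ZMod p) (w x) * quadraticChar (ZMod p) (w y) * ((if h x = h y then (p : ℤ) else 0) - 1) := by
    intro x
    rw [Finset.sum_comm]
    apply Finset.sum_congr rfl
    intro y _
    rw [← Finset.mul_sum, sum_quad h2]
  rw [Finset.sum_congr rfl (fun x _ => h3 x), pow_two, Finset.sum_mul_sum, Finset.mul_sum,
    ← Finset.sum_sub_distrib]
  apply Finset.sum_congr rfl
  intro x _
  rw [Finset.mul_sum, ← Finset.sum_sub_distrib]
  apply Finset.sum_congr rfl
  intro y _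
  split_ifs <;> ring

theorem card_units : (Finset.univ : Finset (ZMod p)ˣ).card = p - 1 := by
  rw [Finset.card_univ, ZMod.card_units_eq_totient, Nat.totient_prime Fact.out]

/-- pairs with the same power, weighted by the character -/
theorem pair_char (m : ℕ) :
    ∑ x : ZMod p, ∑ y : ZMod p, (if x ^ m = y ^ m then quadraticChar (ZMod p) x * quadraticChar (ZMod p) y else 0) =
      ((p : ℤ) - 1) * ∑ t : ZMod p, if t ^ m = 1 then quadraticChar (ZMod p) t else 0 := by
  rw [sum_ne_zero_eq]
  have h0 : ∑ y : ZMod p, (if (0 : ZMod p) ^ m = y ^ m then quadraticChar (ZMod p) 0 * quadraticChar (ZMod p) y else 0) = 0 := by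
    apply Finset.sum_eq_zero
    intro y _
    rw [MulChar.map_zero, zero_mul, ite_self]
  rw [h0, zero_add]
  have h1 : ∀ x : (ZMod p)ˣ, ∑ y : ZMod p, (if (x : ZMod p) ^ m = y ^ m then quadraticChar (ZMod p) x * quadraticChar (ZMod p) y else 0) =
      ∑ t : ZMod p, if t ^ m = 1 then quadraticChar (ZMod p) t else 0 := by
    intro x
    symm
    refine Fintype.sum_equiv (Equiv.mulLeft₀ (x : ZMod p) x.ne_zero) _ _ (fun t => ?_)
    change _ = if (x : ZMod p) ^ m = ((x : ZMod p) * t) ^ m then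
      quadraticChar (ZMod p) (x : ZMod p) * quadraticChar (ZMod p) ((x : ZMod p) * t) else 0
    have hx := x.ne_zero
    have e : ((x : ZMod p) ^ m = (x * t) ^ m) ↔ t ^ m = 1 := by
      rw [mul_pow]
      constructor
      · intro h
        have h5 : (x : ZMod p) ^ m * 1 = x ^ m * t ^ m := by rw [mul_one]; exact h
        exact (mul_left_cancel₀ (pow_ne_zero m hx) h5).symm
      · intro h
        rw [h, mul_one]
    rw [if_congr e rfl rfl]
    split_ifs with h
    · rw [map_mul, ← mul_assoc, chi_sq hx, one_mul]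
    · rfl
  rw [Finset.sum_congr rfl (fun x _ => h1 x), Finset.sum_const, card_units, nsmul_eq_mul]
  have := (Fact.out : p.Prime).one_lt
  rw [Nat.cast_sub this.le, Nat.cast_one]

/-- pairs with the same power -/
theorem pair_one (m : ℕ) (hm : m ≠ 0) :
    ∑ x : ZMod p, ∑ y : ZMod p, (if x ^ m = y ^ m then (1 : ℤ) else 0) =
      1 + ((p : ℤ) - 1) * ∑ t : ZMod p, if t ^ m = 1 then 1 else 0 := by
  rw [sum_ne_zero_eq]
  have h0 : ∑ y : ZMod p, (if (0 : ZMod p) ^ m = y ^ m then (1 : ℤ) else 0) = 1 := by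
    have : ∀ y : ZMod p, (if (0 : ZMod p) ^ m = y ^ m then (1 : ℤ) else 0) =
        if y = 0 then 1 else 0 := by
      intro y
      have e : ((0 : ZMod p) ^ m = y ^ m) ↔ y = 0 := by
        rw [zero_pow hm, eq_comm, pow_eq_zero_iff hm]
      rw [if_congr e rfl rfl]
    rw [Finset.sum_congr rfl (fun y _ => this y)]
    simp
  rw [h0]
  have h1 : ∀ x : (ZMod p)ˣ, ∑ y : ZMod p, (if (x : ZMod p) ^ m = y ^ m then (1 : ℤ) else 0) =
      ∑ t : ZMod p, if t ^ m = 1 then 1 else 0 := by
    intro x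
    symm
    refine Fintype.sum_equiv (Equiv.mulLeft₀ (x : ZMod p) x.ne_zero) _ _ (fun t => ?_)
    change _ = if (x : ZMod p) ^ m = ((x : ZMod p) * t) ^ m then (1 : ℤ) else 0
    have hx := x.ne_zero
    have e : ((x : ZMod p) ^ m = (x * t) ^ m) ↔ t ^ m = 1 := by
      rw [mul_pow]
      constructor
      · intro h
        have h5 : (x : ZMod p) ^ m * 1 = x ^ m * t ^ m := by rw [mul_one]; exact h
        exact (mul_left_cancel₀ (pow_ne_zero m hx) h5).symm
      · intro h
        rw [h, mul_one]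
    rw [if_congr e rfl rfl]
  rw [Finset.sum_congr rfl (fun x _ => h1 x), Finset.sum_const, card_units, nsmul_eq_mul]
  have := (Fact.out : p.Prime).one_lt
  rw [Nat.cast_sub this.le, Nat.cast_one]

theorem two_ne (h2 : p ≠ 2) : (2 : ZMod p) ≠ 0 := by
  have hp : p.Prime := Fact.out
  intro h
  have : ((2 : ℕ) : ZMod p) = 0 := by exact_mod_cast h
  rw [ZMod.natCast_eq_zero_iff] at this
  exact h2 ((Nat.prime_dvd_prime_iff_eq hp Nat.prime_two).mp this)

theorem one_ne_neg (h2 : p ≠ 2) : (1 : ZMod p) ≠ -1 := by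
  intro h
  apply two_ne h2
  linear_combination h

theorem roots_two (h4 : p % 4 = 1) :
    ∑ t : ZMod p, (if t ^ 2 = 1 then quadraticChar (ZMod p) t else 0) = 2 := by
  have h2 : p ≠ 2 := by rintro rfl; omega
  rw [← Finset.sum_filter]
  have hs : (univ.filter fun t : ZMod p => t ^ 2 = 1) = {1, -1} := by
    ext t
    simp
  have hc : quadraticChar (ZMod p) (-1 : ZMod p) = 1 := by
    rw [quadraticChar_one_iff_isSquare (by simp)]
    rw [ZMod.exists_sq_eq_neg_one_iff]
    omega
  rw [hs, Finset.sum_pair (one_ne_neg h2), map_one, hc]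
  norm_num

theorem exists_i (h4 : p % 4 = 1) : ∃ i : ZMod p, i ^ 2 = -1 := by
  have : IsSquare (-1 : ZMod p) := by
    rw [ZMod.exists_sq_eq_neg_one_iff]
    omega
  obtain ⟨i, hi⟩ := this
  exact ⟨i, by rw [pow_two, ← hi]⟩

theorem roots_four (h8 : p % 8 = 1) :
    ∑ t : ZMod p, (if t ^ 4 = 1 then quadraticChar (ZMod p) t else 0) = 4 := by
  have h2 : p ≠ 2 := by rintro rfl; omega
  obtain ⟨i, hi⟩ := exists_i (p := p) (by omega)
  have hi0 : i ≠ 0 := by
    rintro rfl
    simp at hi
  have h1 := one_ne_neg h2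
  have hsq : ∀ t : ZMod p, t ^ 4 = 1 → quadraticChar (ZMod p) t = 1 := by
    intro t ht
    have ht0 : t ≠ 0 := by
      rintro rfl
      simp at ht
    rw [quadraticChar_one_iff_isSquare ht0, ZMod.euler_criterion p ht0]
    obtain ⟨k, hk⟩ : ∃ k, p / 2 = 4 * k := ⟨p / 8, by omega⟩
    rw [hk, pow_mul, ht, one_pow]
  rw [← Finset.sum_filter]
  have hs : (univ.filter fun t : ZMod p => t ^ 4 = 1) = {1, -1, i, -i} := by
    ext t
    simp only [Finset.mem_filter, Finset.mem_univ, true_and, Finset.mem_insert,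
      Finset.mem_singleton]
    constructor
    · intro h
      have : (t - 1) * ((t + 1) * ((t - i) * (t + i))) = 0 := by
        linear_combination h - (t ^ 2 - 1) * hi
      rcases mul_eq_zero.mp this with h | h
      · left; linear_combination h
      · rcases mul_eq_zero.mp h with h | h
        · right; left; linear_combination h
        · rcases mul_eq_zero.mp h with h | h
          · right; right; left; linear_combination h
          · right; right; right; linear_combination h
    · rintro (h | h | h | h)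
      · rw [h]; ring
      · rw [h]; ring
      · rw [h]; linear_combination (i ^ 2 - 1) * hi
      · rw [h]; linear_combination (i ^ 2 - 1) * hi
  have hc : (univ.filter fun t : ZMod p => t ^ 4 = 1).card = 4 := by
    rw [hs]
    have a1 : (1 : ZMod p) ≠ i := by
      rintro rfl
      apply h1
      linear_combination hi
    have a2 : (1 : ZMod p) ≠ -i := by
      intro h
      apply h1
      linear_combination hi + (1 - i) * h
    have a3 : (-1 : ZMod p) ≠ i := by
      intro h
      apply h1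
      linear_combination hi + (-1 + i) * h
    have a4 : (-1 : ZMod p) ≠ -i := by
      intro h
      apply a1
      linear_combination -h
    have a5 : i ≠ -i := by
      intro h
      have : 2 * i = 0 := by linear_combination h
      rcases mul_eq_zero.mp this with h | h
      · exact two_ne h2 h
      · exact hi0 h
    rw [Finset.card_insert_of_notMem, Finset.card_insert_of_notMem, Finset.card_pair a5]
    · simp only [Finset.mem_insert, Finset.mem_singleton]
      tauto
    · simp only [Finset.mem_insert, Finset.mem_singleton]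
      tauto
  rw [Finset.sum_congr rfl (fun t ht => hsq t (Finset.mem_filter.mp ht).2), Finset.sum_const, hc]
  norm_num

theorem roots_three (h3 : p % 3 = 1) :
    ∑ t : ZMod p, (if t ^ 3 = 1 then (1 : ℤ) else 0) = 3 := by
  have hp : p.Prime := Fact.out
  obtain ⟨g, hg⟩ := exists_gen (p := p)
  have ho : orderOf g = p - 1 := by
    rw [orderOf_eq_card_of_forall_mem_zpowers hg, Nat.card_eq_fintype_card,
      ZMod.card_units_eq_totient, Nat.totient_prime hp]
  obtain ⟨k, hk⟩ : ∃ k, p - 1 = 3 * k := ⟨(p - 1) / 3, by omega⟩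
  have hk0 : 0 < k := by
    have := hp.one_lt
    omega
  set v : (ZMod p)ˣ := g ^ k with hv
  have hv1 : v ≠ 1 := by
    intro h
    have := orderOf_dvd_of_pow_eq_one h
    rw [ho, hk] at this
    have := Nat.le_of_dvd hk0 this
    omega
  have hv3 : v ^ 3 = 1 := by
    rw [hv, ← pow_mul, mul_comm, ← hk, ← ho, pow_orderOf_eq_one]
  set w : ZMod p := (v : ZMod p) with hw
  have hw1 : w ≠ 1 := by
    intro h
    apply hv1
    exact Units.ext h
  have hw3 : w ^ 3 = 1 := by
    rw [hw, ← Units.val_pow_eq_pow_val, hv3, Units.val_one]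
  have hq : w ^ 2 + w + 1 = 0 := by
    have : (w - 1) * (w ^ 2 + w + 1) = 0 := by linear_combination hw3
    rcases mul_eq_zero.mp this with h | h
    · exact absurd (by linear_combination h) hw1
    · exact h
  rw [← Finset.sum_filter]
  have hs : (univ.filter fun t : ZMod p => t ^ 3 = 1) = {1, w, w ^ 2} := by
    ext t
    simp only [Finset.mem_filter, Finset.mem_univ, true_and, Finset.mem_insert,
      Finset.mem_singleton]
    constructor
    · intro h
      have : (t - 1) * ((t - w) * (t - w ^ 2)) = 0 := by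
        linear_combination h + (t ^ 2 - t) * (-1) * hq + (t - 1) * hw3
      rcases mul_eq_zero.mp this with h | h
      · left; linear_combination h
      · rcases mul_eq_zero.mp h with h | h
        · right; left; linear_combination h
        · right; right; linear_combination h
    · rintro (h | h | h)
      · rw [h]; ring
      · rw [h]; exact hw3
      · rw [h]; linear_combination (w ^ 3 + 1) * hw3
  have hw0 : w ≠ 0 := v.ne_zero
  have a1 : (1 : ZMod p) ≠ w ^ 2 := by
    intro h
    apply hw1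
    linear_combination hw3 + w * h
  have a2 : w ≠ w ^ 2 := by
    intro h
    apply hw1
    have : w * (w - 1) = 0 := by linear_combination -h
    rcases mul_eq_zero.mp this with h | h
    · exact absurd h hw0
    · linear_combination h
  rw [Finset.sum_const, hs, Finset.card_insert_of_notMem, Finset.card_pair a2]
  · norm_num
  · simp only [Finset.mem_insert, Finset.mem_singleton]
    have := hw1.symm
    tauto

theorem chi_pow_odd (x : ZMod p) (k : ℕ) : quadraticChar (ZMod p) (x ^ (2 * k + 1)) = quadraticChar (ZMod p) x := by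
  by_cases hx : x = 0
  · subst hx
    rw [zero_pow (by omega)]
  · have : x ^ (2 * k + 1) = (x ^ k) ^ 2 * x := by ring
    rw [this, chi_mul_sq (pow_ne_zero k hx)]

theorem pow_rep {g : (ZMod p)ˣ} (hg : ∀ x, x ∈ Subgroup.zpowers g) {a : ZMod p} (ha : a ≠ 0) :
    ∃ k : ℕ, a = (g : ZMod p) ^ k := by
  have h1 := IsCyclic.image_range_card hg
  have h3 : Units.mk0 a ha ∈ (Finset.univ : Finset (ZMod p)ˣ) := mem_univ _
  rw [← h1] at h3
  obtain ⟨k, _, hk⟩ := Finset.mem_image.mp h3
  refine ⟨k, ?_⟩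
  have := congrArg Units.val hk
  rw [Units.val_pow_eq_pow_val, Units.val_mk0] at this
  exact this.symm

theorem T_zero (h2 : p ≠ 2) : T p 0 = 0 := by
  unfold T
  rw [← sum_zero (p := p) h2]
  apply Finset.sum_congr rfl
  intro x _
  rw [zero_mul, add_zero]
  exact chi_pow_odd x 1

theorem U_zero (h2 : p ≠ 2) : U p 0 = 0 := by
  unfold U
  rw [← sum_zero (p := p) h2]
  apply Finset.sum_congr rfl
  intro x _
  rw [add_zero]
  exact chi_pow_odd x 1

theorem V_zero (h2 : p ≠ 2) : V p 0 = 0 := by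
  unfold V
  rw [← sum_zero (p := p) h2]
  apply Finset.sum_congr rfl
  intro x _
  rw [add_zero, ← pow_succ' x 4]
  exact chi_pow_odd x 2

theorem T_moment (h4 : p % 4 = 1) : ∑ a : ZMod p, T p a ^ 2 = 2 * (p * ((p : ℤ) - 1)) := by
  have h2 : p ≠ 2 := by rintro rfl; omega
  have h := second_moment h2 (fun x : ZMod p => x) (fun x => x ^ 2)
  have e : ∀ a : ZMod p, T p a = ∑ x : ZMod p, quadraticChar (ZMod p) (x * (x ^ 2 + a)) := by
    intro a
    unfold T
    apply Finset.sum_congr rfl
    intro x _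
    congr 1
    ring
  simp only [e]
  rw [h, pair_char, roots_two h4, sum_zero h2]
  ring

theorem V_moment (h8 : p % 8 = 1) : ∑ a : ZMod p, V p a ^ 2 = 4 * (p * ((p : ℤ) - 1)) := by
  have h2 : p ≠ 2 := by rintro rfl; omega
  have h := second_moment h2 (fun x : ZMod p => x) (fun x => x ^ 4)
  unfold V
  rw [h, pair_char, roots_four h8, sum_zero h2]
  ring

theorem U_moment (h2 : p ≠ 2) (h3 : p % 3 = 1) :
    ∑ a : ZMod p, U p a ^ 2 = 2 * (p * ((p : ℤ) - 1)) := by
  have h := second_moment h2 (fun _ : ZMod p => 1) (fun x => x ^ 3)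
  have e : ∀ a : ZMod p, U p a = ∑ x : ZMod p, quadraticChar (ZMod p) (1 * (x ^ 3 + a)) := by
    intro a
    unfold U
    simp only [one_mul]
  simp only [e]
  rw [h]
  simp only [map_one, mul_one]
  rw [pair_one 3 (by norm_num), roots_three h3]
  simp
  ring

/-- `4 p - T ^ 2` is a square -/
theorem T_sq (h4 : p % 4 = 1) {a : ZMod p} (ha : a ≠ 0) : ∃ G : ℤ, 4 * p - T p a ^ 2 = G ^ 2 := by
  have h2 : p ≠ 2 := by rintro rfl; omega
  obtain ⟨g, hg⟩ := exists_gen (p := p)
  have hm := T_moment (p := p) h4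
  have hc := chi_gen h2 hg
  have hs : ∀ k : ℕ, T p ((g : ZMod p) ^ (k + 2)) ^ 2 = T p ((g : ZMod p) ^ k) ^ 2 := by
    intro k
    rw [pow_add, mul_comm, T_scale g.ne_zero, hc]
    ring
  obtain ⟨n, hn⟩ : ∃ n, p - 1 = 2 * n := ⟨(p - 1) / 2, by omega⟩
  have hn0 : 0 < n := by
    have := (Fact.out : p.Prime).one_lt
    omega
  rw [sum_ne_zero_eq, T_zero h2, sum_gen hg, hn] at hm
  simp only [Units.val_pow_eq_pow_val] at hm
  rw [sum_periodic (fun k => T p ((g : ZMod p) ^ k) ^ 2) 2 hs n] at hm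
  simp only [Finset.sum_range_succ, Finset.sum_range_zero, pow_zero, pow_one, zero_add] at hm
  have hp1 : (p : ℤ) - 1 = 2 * n := by
    have := (Fact.out : p.Prime).one_lt
    omega
  rw [hp1] at hm
  have key : T p 1 ^ 2 + T p (g : ZMod p) ^ 2 = 4 * p := by
    have hn' : (n : ℤ) ≠ 0 := by exact_mod_cast hn0.ne'
    apply mul_left_cancel₀ hn'
    linear_combination hm
  obtain ⟨k, rfl⟩ := pow_rep hg ha
  have hk : ∀ k : ℕ, T p ((g : ZMod p) ^ k) ^ 2 = T p 1 ^ 2 ∨
      T p ((g : ZMod p) ^ k) ^ 2 = T p (g : ZMod p) ^ 2 := by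
    intro k
    induction k using Nat.twoStepInduction with
    | zero => left; rw [pow_zero]
    | one => right; rw [pow_one]
    | more k ih1 _ => rw [hs]; exact ih1
  rcases hk k with h | h
  · exact ⟨T p (g : ZMod p), by rw [h]; linear_combination -key⟩
  · exact ⟨T p 1, by rw [h]; linear_combination -key⟩

/-- `3 (4 p - U ^ 2)` is a square -/
theorem U_sq (h2 : p ≠ 2) (h3 : p % 3 = 1) {a : ZMod p} (ha : a ≠ 0) :
    ∃ H : ℤ, 3 * (4 * p - U p a ^ 2) = H ^ 2 := by
  obtain ⟨g, hg⟩ := exists_gen (p := p)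
  have hm := U_moment (p := p) h2 h3
  have hc := chi_gen h2 hg
  have hs0 : ∀ k : ℕ, U p ((g : ZMod p) ^ (k + 3)) = - U p ((g : ZMod p) ^ k) := by
    intro k
    rw [pow_add, mul_comm, U_scale g.ne_zero, hc]
    ring
  have hs : ∀ k : ℕ, U p ((g : ZMod p) ^ (k + 3)) ^ 2 = U p ((g : ZMod p) ^ k) ^ 2 := by
    intro k
    rw [hs0]
    ring
  obtain ⟨n, hn⟩ : ∃ n, p - 1 = 3 * n := ⟨(p - 1) / 3, by omega⟩
  have hn0 : 0 < n := by
    have := (Fact.out : p.Prime).one_lt
    omega
  have hn' : (n : ℤ) ≠ 0 := by exact_mod_cast hn0.ne'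
  rw [sum_ne_zero_eq, U_zero h2, sum_gen hg, hn] at hm
  simp only [Units.val_pow_eq_pow_val] at hm
  rw [sum_periodic (fun k => U p ((g : ZMod p) ^ k) ^ 2) 3 hs n] at hm
  simp only [Finset.sum_range_succ, Finset.sum_range_zero, pow_zero, pow_one, zero_add] at hm
  have hp1 : (p : ℤ) - 1 = 3 * n := by
    have := (Fact.out : p.Prime).one_lt
    omega
  rw [hp1] at hm
  have key : U p 1 ^ 2 + U p (g : ZMod p) ^ 2 + U p ((g : ZMod p) ^ 2) ^ 2 = 6 * p := by
    apply mul_left_cancel₀ hn'
    linear_combination hm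
  -- the linear relation
  have hl : ∑ t : (ZMod p)ˣ, U p ((t : ZMod p) ^ 2) = 0 := by
    have h5 : ∑ t : ZMod p, U p (t ^ 2) = 0 := by
      unfold U
      rw [Finset.sum_comm, sum_ne_zero_eq]
      have e0 : ∑ t : ZMod p, quadraticChar (ZMod p) ((0 : ZMod p) ^ 3 + t ^ 2) = (p : ℤ) - 1 := by
        have h6 := sum_quad (p := p) h2 0 0
        rw [if_pos rfl] at h6
        rw [← h6]
        apply Finset.sum_congr rfl
        intro t _
        congr 1
        ring
      have e1 : ∀ x : (ZMod p)ˣ, ∑ t : ZMod p, quadraticChar (ZMod p) ((x : ZMod p) ^ 3 + t ^ 2) = -1 := by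
        intro x
        rw [← sum_sq_add h2 (pow_ne_zero 3 x.ne_zero)]
        apply Finset.sum_congr rfl
        intro t _
        rw [add_comm]
      rw [e0, Finset.sum_congr rfl (fun x _ => e1 x), Finset.sum_const, card_units,
        nsmul_eq_mul]
      have := (Fact.out : p.Prime).one_lt
      rw [Nat.cast_sub this.le]
      push_cast
      ring
    rw [sum_ne_zero_eq, zero_pow two_ne_zero, U_zero h2, zero_add] at h5
    exact h5
  rw [sum_gen hg, hn] at hl
  simp only [Units.val_pow_eq_pow_val] at hl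
  have hs2 : ∀ k : ℕ, U p (((g : ZMod p) ^ (k + 3)) ^ 2) = U p (((g : ZMod p) ^ k) ^ 2) := by
    intro k
    rw [← pow_mul, ← pow_mul, show (k + 3) * 2 = (k * 2 + 3) + 3 by ring, hs0, hs0]
    ring
  rw [sum_periodic (fun k => U p (((g : ZMod p) ^ k) ^ 2)) 3 hs2 n] at hl
  simp only [Finset.sum_range_succ, Finset.sum_range_zero, pow_zero, pow_one, zero_add,
    one_pow] at hl
  have h4 : U p (((g : ZMod p) ^ 2) ^ 2) = - U p (g : ZMod p) := by
    rw [← pow_mul, show 2 * 2 = 1 + 3 by norm_num, hs0, pow_one]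
  rw [h4] at hl
  have lin : U p (g : ZMod p) = U p 1 + U p ((g : ZMod p) ^ 2) := by
    rcases mul_eq_zero.mp hl with h | h
    · exact absurd h hn'
    · linear_combination -h
  rw [lin] at key
  obtain ⟨k, rfl⟩ := pow_rep hg ha
  have hk : ∀ k : ℕ, U p ((g : ZMod p) ^ k) ^ 2 = U p 1 ^ 2 ∨
      U p ((g : ZMod p) ^ k) ^ 2 = U p (g : ZMod p) ^ 2 ∨
      U p ((g : ZMod p) ^ k) ^ 2 = U p ((g : ZMod p) ^ 2) ^ 2 := by
    intro k
    induction k using Nat.strong_induction_on with
    | _ k ih =>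
      match k, ih with
      | 0, _ => left; rw [pow_zero]
      | 1, _ => right; left; rw [pow_one]
      | 2, _ => right; right; rfl
      | k + 3, ih => rw [hs]; exact ih k (by omega)
  rcases hk k with h | h | h
  · exact ⟨U p 1 + 2 * U p ((g : ZMod p) ^ 2), by rw [h]; linear_combination -2 * key⟩
  · exact ⟨U p 1 - U p ((g : ZMod p) ^ 2), by rw [h, lin]; linear_combination -2 * key⟩
  · exact ⟨2 * U p 1 + U p ((g : ZMod p) ^ 2), by rw [h]; linear_combination -2 * key⟩

/-- `V 1 = 2 B` -/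
theorem V_one (h4 : p % 4 = 1) : V p 1 = 2 * B p := by
  have h2 : p ≠ 2 := by rintro rfl; omega
  have hp2 := two_ne h2
  have hm1 : quadraticChar (ZMod p) (-1 : ZMod p) = 1 := by
    rw [quadraticChar_one_iff_isSquare (by simp)]
    rw [ZMod.exists_sq_eq_neg_one_iff]
    omega
  -- sums over x + 1 / x
  have hS : ∀ f : ZMod p → ℤ, ∑ x : (ZMod p)ˣ, f ((x : ZMod p) + (x : ZMod p)⁻¹) =
      ∑ u : ZMod p, f u * (1 + quadraticChar (ZMod p) (u ^ 2 - 4)) := by
    intro f
    rw [← Finset.sum_fiberwise_of_maps_to (g := fun x : (ZMod p)ˣ => (x : ZMod p) + (x : ZMod p)⁻¹)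
      (t := univ) (fun _ _ => mem_univ _)]
    apply Finset.sum_congr rfl
    intro u _
    have hcard : ((univ.filter fun x : (ZMod p)ˣ => (x : ZMod p) + (x : ZMod p)⁻¹ = u).card : ℤ) =
        1 + quadraticChar (ZMod p) (u ^ 2 - 4) := by
      rw [← card_sq h2]
      congr 1
      apply Finset.card_bij (fun (x : (ZMod p)ˣ) _ => 2 * (x : ZMod p) - u)
      · intro x hx
        have hx' := (Finset.mem_filter.mp hx).2
        have hx0 := x.ne_zero
        simp only [Finset.mem_filter, Finset.mem_univ, true_and]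
        have : (x : ZMod p) ^ 2 + 1 = u * x := by
          rw [← hx']
          field_simp
        linear_combination 4 * this
      · intro x _ y _ hxy
        apply Units.ext
        apply mul_left_cancel₀ hp2
        linear_combination hxy
      · intro t ht
        have ht' := (Finset.mem_filter.mp ht).2
        have hx0 : (t + u) / 2 ≠ 0 := by
          intro h
          have h5 : t = -u := by
            field_simp at h
            linear_combination h
          rw [h5] at ht'
          have : (2 : ZMod p) * 2 = 0 := by linear_combination ht'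
          rcases mul_eq_zero.mp this with h | h
          · exact hp2 h
          · exact hp2 h
        refine ⟨Units.mk0 _ hx0, ?_, ?_⟩
        · simp only [Finset.mem_filter, Finset.mem_univ, true_and, Units.val_mk0]
          have hx1 : t + u ≠ 0 := by
            intro h
            apply hx0
            rw [h, zero_div]
          field_simp
          linear_combination ht'
        · simp only [Units.val_mk0]
          field_simp
          ring
    rw [← hcard, Finset.sum_congr rfl (g := fun _ => f u)]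
    · rw [Finset.sum_const, nsmul_eq_mul, mul_comm]
    · intro x hx
      rw [(Finset.mem_filter.mp hx).2]
  -- the first transformation
  have h1 : V p 1 = ∑ x : (ZMod p)ˣ, (quadraticChar (ZMod p) ((x : ZMod p) + (x : ZMod p)⁻¹ + 2) *
      quadraticChar (ZMod p) (((x : ZMod p) + (x : ZMod p)⁻¹) ^ 2 - 2)) + quadraticChar (ZMod p) (2 : ZMod p) := by
    unfold V
    rw [sum_ne_zero_eq, zero_mul, MulChar.map_zero, zero_add]
    have e : ∀ x : (ZMod p)ˣ, quadraticChar (ZMod p) ((x : ZMod p) * ((x : ZMod p) ^ 4 + 1)) =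
        quadraticChar (ZMod p) ((x : ZMod p) + (x : ZMod p)⁻¹ + 2) * quadraticChar (ZMod p) (((x : ZMod p) + (x : ZMod p)⁻¹) ^ 2 - 2) +
          (if x = -1 then quadraticChar (ZMod p) (2 : ZMod p) else 0) := by
      intro x
      have hx := x.ne_zero
      by_cases hx1 : x = -1
      · subst hx1
        rw [if_pos rfl]
        simp only [Units.val_neg, Units.val_one]
        have e1 : (-1 : ZMod p) + (-1)⁻¹ + 2 = 0 := by norm_num
        rw [e1, MulChar.map_zero, zero_mul, zero_add]
        have e2 : (-1 : ZMod p) * ((-1) ^ 4 + 1) = -1 * 2 := by ring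
        rw [e2, map_mul, hm1, one_mul]
      · rw [if_neg hx1, add_zero, ← map_mul]
        have hx2 : (x : ZMod p) + 1 ≠ 0 := by
          intro h
          apply hx1
          apply Units.ext
          rw [Units.val_neg, Units.val_one]
          linear_combination h
        have e3 : ((x : ZMod p) + (x : ZMod p)⁻¹ + 2) *
            (((x : ZMod p) + (x : ZMod p)⁻¹) ^ 2 - 2) =
            (((x : ZMod p) + 1) / (x : ZMod p) ^ 2) ^ 2 * ((x : ZMod p) * ((x : ZMod p) ^ 4 + 1)) := by
          field_simp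
          ring
        rw [e3, chi_mul_sq (div_ne_zero hx2 (pow_ne_zero 2 hx))]
    rw [Finset.sum_congr rfl (fun x _ => e x), Finset.sum_add_distrib, Finset.sum_ite_eq',
      if_pos (mem_univ _)]
  rw [h1, hS (fun u => quadraticChar (ZMod p) (u + 2) * quadraticChar (ZMod p) (u ^ 2 - 2))]
  have h3 : ∀ u : ZMod p, quadraticChar (ZMod p) (u + 2) * quadraticChar (ZMod p) (u ^ 2 - 2) * (1 + quadraticChar (ZMod p) (u ^ 2 - 4)) =
      quadraticChar (ZMod p) ((u + 2) * (u ^ 2 - 2)) + (quadraticChar (ZMod p) ((u - 2) * (u ^ 2 - 2)) -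
        (if u = -2 then quadraticChar (ZMod p) (2 : ZMod p) else 0)) := by
    intro u
    by_cases hu : u = -2
    · subst hu
      rw [if_pos rfl]
      have e1 : (-2 : ZMod p) + 2 = 0 := by norm_num
      rw [e1, MulChar.map_zero, zero_mul, zero_mul, zero_mul, MulChar.map_zero, zero_add]
      have e2 : ((-2 : ZMod p) - 2) * ((-2) ^ 2 - 2) = 2 ^ 2 * (-1 * 2) := by norm_num
      rw [e2, chi_mul_sq hp2, map_mul, hm1, one_mul, sub_self]
    · rw [if_neg hu, sub_zero]
      have hu2 : u + 2 ≠ 0 := by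
        intro h
        apply hu
        linear_combination h
      have e1 : quadraticChar (ZMod p) (u + 2) * quadraticChar (ZMod p) (u ^ 2 - 2) * (1 + quadraticChar (ZMod p) (u ^ 2 - 4)) = quadraticChar (ZMod p) ((u + 2) * (u ^ 2 - 2)) +
          quadraticChar (ZMod p) ((u + 2) * (u ^ 2 - 2) * (u ^ 2 - 4)) := by
        rw [map_mul (quadraticChar (ZMod p)) ((u + 2) * (u ^ 2 - 2)), map_mul]
        ring
      have e2 : (u + 2) * (u ^ 2 - 2) * (u ^ 2 - 4) = (u + 2) ^ 2 * ((u - 2) * (u ^ 2 - 2)) := by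
        ring
      rw [e1, e2, chi_mul_sq hu2]
  rw [Finset.sum_congr rfl (fun u _ => h3 u), Finset.sum_add_distrib, Finset.sum_sub_distrib,
    Finset.sum_ite_eq', if_pos (mem_univ _)]
  have h5 : ∑ u : ZMod p, quadraticChar (ZMod p) ((u - 2) * (u ^ 2 - 2)) = B p := by
    unfold B
    refine Fintype.sum_equiv (Equiv.neg _) _ _ (fun u => ?_)
    simp only [Equiv.neg_apply]
    have : (-u + 2) * ((-u) ^ 2 - 2) = -1 * ((u - 2) * (u ^ 2 - 2)) := by ring
    rw [this, map_mul (quadraticChar (ZMod p)) (-1), hm1, one_mul]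
  rw [h5]
  unfold B
  ring

/-- `2 (4 p - B ^ 2)` is a square -/
theorem B_sq (h8 : p % 8 = 1) : ∃ F : ℤ, 2 * (4 * p - B p ^ 2) = F ^ 2 := by
  have h2 : p ≠ 2 := by rintro rfl; omega
  obtain ⟨g, hg⟩ := exists_gen (p := p)
  have hm := V_moment (p := p) h8
  have hc := chi_gen h2 hg
  have hg0 : (g : ZMod p) ≠ 0 := g.ne_zero
  have hs0 : ∀ k : ℕ, V p ((g : ZMod p) ^ (k + 4)) = - V p ((g : ZMod p) ^ k) := by
    intro k
    rw [pow_add, mul_comm, V_scale g.ne_zero, hc]
    ring
  have hs : ∀ k : ℕ, V p ((g : ZMod p) ^ (k + 4)) ^ 2 = V p ((g : ZMod p) ^ k) ^ 2 := by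
    intro k
    rw [hs0]
    ring
  obtain ⟨n, hn⟩ : ∃ n, p - 1 = 4 * n := ⟨(p - 1) / 4, by omega⟩
  have hn0 : 0 < n := by
    have := (Fact.out : p.Prime).one_lt
    omega
  have hn' : (n : ℤ) ≠ 0 := by exact_mod_cast hn0.ne'
  rw [sum_ne_zero_eq, V_zero h2, sum_gen hg, hn] at hm
  simp only [Units.val_pow_eq_pow_val] at hm
  rw [sum_periodic (fun k => V p ((g : ZMod p) ^ k) ^ 2) 4 hs n] at hm
  simp only [Finset.sum_range_succ, Finset.sum_range_zero, pow_zero, pow_one, zero_add] at hm
  have hp1 : (p : ℤ) - 1 = 4 * n := by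
    have := (Fact.out : p.Prime).one_lt
    omega
  rw [hp1] at hm
  have key : V p 1 ^ 2 + V p (g : ZMod p) ^ 2 + V p ((g : ZMod p) ^ 2) ^ 2 +
      V p ((g : ZMod p) ^ 3) ^ 2 = 16 * p := by
    apply mul_left_cancel₀ hn'
    linear_combination hm
  have w2 : V p ((g : ZMod p) ^ 2) = 0 := by
    have e1 := V_inv (p := p) (pow_ne_zero 2 hg0)
    have e2 : V p ((g : ZMod p) ^ 2) = quadraticChar (ZMod p) (g : ZMod p) * V p (((g : ZMod p) ^ 2)⁻¹) := by
      rw [← V_scale hg0]
      congr 1
      field_simp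
    rw [quadraticChar_sq_one' hg0] at e1
    rw [hc] at e2
    linarith
  have w3 : V p ((g : ZMod p) ^ 3) = V p (g : ZMod p) := by
    have e1 := V_inv (p := p) hg0
    have e2 : V p ((g : ZMod p) ^ 3) = quadraticChar (ZMod p) (g : ZMod p) * V p ((g : ZMod p)⁻¹) := by
      rw [← V_scale hg0]
      congr 1
      field_simp
    rw [e1, e2]
  rw [w2, w3, V_one (by omega)] at key
  exact ⟨V p (g : ZMod p), by linarith⟩

/-! ### Supersingular cases -/

theorem T_super (h4 : p % 4 = 3) (a : ZMod p) : T p a = 0 := by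
  have hm1 : quadraticChar (ZMod p) (-1 : ZMod p) = -1 := by
    have h2 : p ≠ 2 := by rintro rfl; omega
    have h : ringChar (ZMod p) ≠ 2 := by rwa [ZMod.ringChar_zmod_n]
    rw [quadraticChar_neg_one_iff_not_isSquare, ZMod.exists_sq_eq_neg_one_iff]
    omega
  have h : T p a = - T p a := by
    conv_lhs => unfold T
    unfold T
    rw [← Finset.sum_neg_distrib]
    refine Fintype.sum_equiv (Equiv.neg _) _ _ (fun x => ?_)
    simp only [Equiv.neg_apply]
    have : (-x) ^ 3 + a * (-x) = -1 * (x ^ 3 + a * x) := by ring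
    rw [this, map_mul, hm1]
    ring
  omega

theorem cube_inj (h3 : p % 3 = 2) : Function.Injective (fun x : ZMod p => x ^ 3) := by
  have hp : p.Prime := Fact.out
  intro x y h
  have h : x ^ 3 = y ^ 3 := h
  by_cases hy : y = 0
  · subst hy
    rw [zero_pow three_ne_zero] at h
    exact pow_eq_zero_iff three_ne_zero |>.mp h
  · have hx : x ≠ 0 := by
      rintro rfl
      rw [zero_pow three_ne_zero] at h
      exact hy (pow_eq_zero_iff three_ne_zero |>.mp h.symm)
    have h1 : (x / y) ^ 3 = 1 := by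
      rw [div_pow, h, div_self (pow_ne_zero 3 hy)]
    have h5 : (x / y) ^ (p - 1) = 1 := ZMod.pow_card_sub_one_eq_one (div_ne_zero hx hy)
    obtain ⟨k, hk⟩ : ∃ k, p - 1 = 3 * k + 1 := ⟨(p - 1) / 3, by omega⟩
    rw [hk, pow_add, pow_mul, h1, one_pow, one_mul, pow_one] at h5
    rw [div_eq_one_iff_eq hy] at h5
    exact h5

theorem U_super (h2 : p ≠ 2) (h3 : p % 3 = 2) (a : ZMod p) : U p a = 0 := by
  unfold U
  rw [← sum_shift_zero h2 a]
  exact Fintype.sum_equiv (Equiv.ofBijective _ (Finite.injective_iff_bijective.mp (cube_inj h3)))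
    _ _ (fun x => rfl)

/-! ### Comparison -/

theorem no_mul_sq {k : ℕ} (hk : ¬ p ∣ k) {z : ℤ} (h : (k : ℤ) * p = z ^ 2) : False := by
  have hp : p.Prime := Fact.out
  have hz : (p : ℤ) ∣ z := by
    have : (p : ℤ) ∣ z ^ 2 := ⟨k, by linear_combination -h⟩
    exact Int.Prime.dvd_pow' hp this
  obtain ⟨w, rfl⟩ := hz
  have hp0 : (p : ℤ) ≠ 0 := by exact_mod_cast hp.ne_zero
  have h1 : (k : ℤ) = p * w ^ 2 := by
    apply mul_right_cancel₀ hp0
    linear_combination h
  apply hk
  have : (p : ℤ) ∣ (k : ℤ) := ⟨_, h1⟩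
  exact_mod_cast this

/-- `c x ^ 2 = q y ^ 2` with `q` prime not dividing `c` only for `x = y = 0` -/
theorem no_ratio {q : ℕ} (hq : q.Prime) {c : ℤ} (hc : ¬ (q : ℤ) ∣ c) {x y : ℤ}
    (h : c * x ^ 2 = q * y ^ 2) : y = 0 := by
  by_contra hy
  have hc0 : c ≠ 0 := by
    rintro rfl
    exact hc (dvd_zero _)
  have hq0 : (q : ℤ) ≠ 0 := by exact_mod_cast hq.ne_zero
  have hx : x ≠ 0 := by
    rintro rfl
    have : (q : ℤ) * y ^ 2 = 0 := by linear_combination -h
    rcases mul_eq_zero.mp this with h | h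
    · exact hq0 h
    · exact hy (pow_eq_zero_iff two_ne_zero |>.mp h)
  have : Fact q.Prime := ⟨hq⟩
  have h1 := congrArg (padicValInt q) h
  rw [padicValInt.mul hc0 (pow_ne_zero 2 hx), padicValInt.mul hq0 (pow_ne_zero 2 hy),
    pow_two, pow_two, padicValInt.mul hx hx, padicValInt.mul hy hy,
    padicValInt.eq_zero_of_not_dvd hc, padicValInt.self hq.one_lt] at h1
  omega

theorem T_ne_zero (h5 : 3 < p) (h4 : p % 4 = 1) {a : ZMod p} (ha : a ≠ 0) : T p a ≠ 0 := by
  intro h
  obtain ⟨G, hG⟩ := T_sq h4 ha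
  rw [h] at hG
  refine no_mul_sq (p := p) (k := 4) ?_ (z := G) (by push_cast; linear_combination hG)
  intro h
  have := Nat.le_of_dvd (by norm_num) h
  interval_cases p; omega

theorem U_ne_zero (h5 : 3 < p) (h3 : p % 3 = 1) {a : ZMod p} (ha : a ≠ 0) : U p a ≠ 0 := by
  intro h
  obtain ⟨H, hH⟩ := U_sq (p := p) (by omega) h3 ha
  rw [h] at hH
  refine no_mul_sq (p := p) (k := 12) ?_ (z := H)
    (by push_cast; linear_combination hH)
  intro h
  have h12 : 12 = 2 * 2 * 3 := by norm_num
  rw [h12] at h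
  have hp : p.Prime := Fact.out
  rcases (Nat.Prime.dvd_mul hp).mp h with h | h
  · rcases (Nat.Prime.dvd_mul hp).mp h with h | h
    · have := Nat.le_of_dvd (by norm_num) h; omega
    · have := Nat.le_of_dvd (by norm_num) h; omega
  · have := Nat.le_of_dvd (by norm_num) h; omega

theorem B_ne_zero (h8 : p % 8 = 1) : B p ≠ 0 := by
  intro h
  obtain ⟨F, hF⟩ := B_sq (p := p) h8
  rw [h] at hF
  have hp : p.Prime := Fact.out
  refine no_mul_sq (p := p) (k := 8) ?_ (z := F)
    (by push_cast; linear_combination hF)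
  intro h
  have := Nat.le_of_dvd (by norm_num) h
  have := hp.two_le
  interval_cases p <;> omega

/-- a square `t ^ 2` is not `4 p` -/
theorem not_four (h5 : 3 < p) {t : ℤ} (h : t ^ 2 = 4 * p) : False := by
  refine no_mul_sq (p := p) (k := 4) ?_ (z := t) (by push_cast; linear_combination -h)
  intro h
  have hp : p.Prime := Fact.out
  rw [show 4 = 2 * 2 by norm_num, Nat.Prime.dvd_mul hp] at h
  rcases h with h | h
  · have := Nat.le_of_dvd (by norm_num) h; omega
  · have := Nat.le_of_dvd (by norm_num) h; omega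

/-- **The traces of the fibres with j = 1728 and j = 0** -/
theorem T_ne_U (h5 : 3 < p) (h12 : p % 12 ≠ 11) {a b : ZMod p} (ha : a ≠ 0) (hb : b ≠ 0) :
    T p a ^ 2 ≠ U p b ^ 2 := by
  have hp : p.Prime := Fact.out
  have h2 : p ≠ 2 := by omega
  have hodd := hp.eq_two_or_odd
  have h3 : p % 3 ≠ 0 := by
    intro h
    have := (Nat.prime_dvd_prime_iff_eq Nat.prime_three hp).mp (Nat.dvd_of_mod_eq_zero h)
    omega
  intro h
  by_cases h4 : p % 4 = 1
  · obtain ⟨G, hG⟩ := T_sq h4 ha
    by_cases h31 : p % 3 = 1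
    · obtain ⟨H, hH⟩ := U_sq h2 h31 hb
      rw [← h, hG] at hH
      have h0 : G = 0 := by
        refine no_ratio Nat.prime_three (c := 1) (x := H) (y := G) (by norm_num) ?_
        push_cast
        linear_combination -hH
      rw [h0] at hG
      exact not_four h5 (t := T p a) (by linear_combination -hG)
    · have h32 : p % 3 = 2 := by omega
      rw [U_super h2 h32] at h
      exact T_ne_zero h5 h4 ha (pow_eq_zero_iff two_ne_zero |>.mp (by rw [h]; norm_num))
  · have h43 : p % 4 = 3 := by omega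
    rw [T_super h43] at h
    have h31 : p % 3 = 1 := by omega
    exact U_ne_zero h5 h31 hb (pow_eq_zero_iff two_ne_zero |>.mp (by rw [← h]; norm_num))

/-- **The traces of the fibres with j = 1728 and j = 8000** -/
theorem T_ne_B (h8 : p % 8 = 1) {a : ZMod p} (ha : a ≠ 0) : T p a ^ 2 ≠ B p ^ 2 := by
  have hp : p.Prime := Fact.out
  have h5 : 3 < p := by
    have := hp.two_le
    omega
  intro h
  obtain ⟨G, hG⟩ := T_sq (p := p) (by omega) ha
  obtain ⟨F, hF⟩ := B_sq (p := p) h8
  rw [← h, hG] at hF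
  have h0 : G = 0 := by
    refine no_ratio Nat.prime_two (c := 1) (x := F) (y := G) (by norm_num) ?_
    push_cast
    linear_combination -hF
  rw [h0] at hG
  exact not_four h5 (t := T p a) (by linear_combination -hG)

/-- **The traces of the fibres with j = 0 and j = 8000** -/
theorem U_ne_B (h8 : p % 8 = 1) {a : ZMod p} (ha : a ≠ 0) : U p a ^ 2 ≠ B p ^ 2 := by
  have hp : p.Prime := Fact.out
  have h5 : 3 < p := by
    have := hp.two_le
    omega
  have h2 : p ≠ 2 := by omega
  have h3 : p % 3 ≠ 0 := by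
    intro h
    have := (Nat.prime_dvd_prime_iff_eq Nat.prime_three hp).mp (Nat.dvd_of_mod_eq_zero h)
    omega
  intro h
  obtain ⟨F, hF⟩ := B_sq (p := p) h8
  by_cases h31 : p % 3 = 1
  · obtain ⟨H, hH⟩ := U_sq h2 h31 ha
    rw [← h] at hF
    have h0 : F = 0 := by
      refine no_ratio Nat.prime_three (c := 2) (x := H) (y := F) (by norm_num) ?_
      push_cast
      linear_combination 3 * hF - 2 * hH
    rw [h0] at hF
    exact not_four h5 (t := U p a) (by linarith)
  · have h32 : p % 3 = 2 := by omega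
    rw [U_super h2 h32] at h
    exact B_ne_zero h8 (pow_eq_zero_iff two_ne_zero |>.mp (by rw [← h]; norm_num))

/-! ### Point counts -/

theorem card_curve (h2 : p ≠ 2) (f : ZMod p → ZMod p) :
    (Nat.card {P : ZMod p × ZMod p // P.2 ^ 2 = f P.1} : ℤ) = p + ∑ x : ZMod p, quadraticChar (ZMod p) (f x) := by
  have h1 : Nat.card {P : ZMod p × ZMod p // P.2 ^ 2 = f P.1} =
      ∑ x : ZMod p, (univ.filter fun t : ZMod p => t ^ 2 = f x).card := by
    rw [Nat.card_eq_fintype_card, Fintype.card_subtype,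
      Finset.card_eq_sum_card_fiberwise (f := Prod.fst) (t := univ) (fun _ _ => mem_univ _)]
    apply Finset.sum_congr rfl
    intro x _
    apply Finset.card_bij (fun (P : ZMod p × ZMod p) _ => P.2)
    · intro P hP
      simp only [Finset.mem_filter, Finset.mem_univ, true_and] at hP ⊢
      rw [hP.1, hP.2]
    · intro P hP Q hQ h
      simp only [Finset.mem_filter, Finset.mem_univ, true_and] at hP hQ
      exact Prod.ext (by rw [hP.2, hQ.2]) h
    · intro t ht
      simp only [Finset.mem_filter, Finset.mem_univ, true_and] at ht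
      exact ⟨(x, t), by simp [ht], rfl⟩
  rw [h1]
  push_cast
  rw [Finset.sum_congr rfl (fun x _ => card_sq h2 (f x)), Finset.sum_add_distrib,
    Finset.sum_const, Finset.card_univ, ZMod.card]
  simp

/-- Two affine curves with different absolute traces have different counts. -/
theorem card_ne (h2 : p ≠ 2) {f g : ZMod p → ZMod p}
    (h : (∑ x : ZMod p, quadraticChar (ZMod p) (f x)) ^ 2 ≠ (∑ x : ZMod p, quadraticChar (ZMod p) (g x)) ^ 2) :
    Nat.card {P : ZMod p × ZMod p // P.2 ^ 2 = f P.1} ≠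
      Nat.card {P : ZMod p × ZMod p // P.2 ^ 2 = g P.1} := by
  intro h1
  apply h
  have h3 := card_curve h2 f
  have h4 := card_curve h2 g
  rw [h1, h4] at h3
  have : ∑ x : ZMod p, quadraticChar (ZMod p) (g x) = ∑ x : ZMod p, quadraticChar (ZMod p) (f x) := by linarith
  rw [this]

/-- an affine change of variable in the sum -/
theorem sum_affine {m : ZMod p} (hm : m ≠ 0) (d : ZMod p) (f : ZMod p → ZMod p) :
    ∑ x : ZMod p, quadraticChar (ZMod p) (f x) = ∑ x : ZMod p, quadraticChar (ZMod p) (f (m * x + d)) := by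
  symm
  exact Fintype.sum_equiv ((Equiv.mulLeft₀ m hm).trans (Equiv.addRight d)) _ _ (fun x => rfl)

/-- squares of sums: a constant factor of the polynomial does not matter -/
theorem sum_const_sq {m : ZMod p} (hm : m ≠ 0) (f : ZMod p → ZMod p) :
    (∑ x : ZMod p, quadraticChar (ZMod p) (m * f x)) ^ 2 = (∑ x : ZMod p, quadraticChar (ZMod p) (f x)) ^ 2 := by
  have h : ∀ x : ZMod p, quadraticChar (ZMod p) (m * f x) = quadraticChar (ZMod p) m * quadraticChar (ZMod p) (f x) := fun x => map_mul _ _ _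
  rw [Finset.sum_congr rfl (fun x _ => h x), ← Finset.mul_sum, mul_pow, quadraticChar_sq_one hm,
    one_mul]

end Pool.Agent.Lib.IsoFib.CM
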