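import Mathlib

/-!
# Point counts of elliptic curves with a rational point of order two, modulo 8

For `y ^ 2 = x ^ 3 + a x + b` over a finite field of odd characteristic: duplication of points,
halving of the points of order two, and the number of points modulo 4 and 8. Used for
`MP_09b6ec_lc` (non-isogenous consecutive fibres).
-/

set_option linter.unusedSectionVars false

open WeierstrassCurve

namespace Pool.Agent.Lib.IsoFib

/-- doubling -/
abbrev dbl (G : Type*) [AddCommGroup G] : G →+ G := nsmulAddMonoidHom (α := G) 2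

theorem card_dbl (G : Type*) [AddCommGroup G] :
    Nat.card G = Nat.card (dbl G).ker * Nat.card (dbl G).range := by
  have h := AddSubgroup.card_eq_card_quotient_mul_card_addSubgroup (dbl G).ker
  rw [Nat.card_congr (QuotientAddGroup.quotientKerEquivRange (dbl G)).toEquiv] at h
  rw [h, mul_comm]

theorem range_odd {G : Type*} [AddCommGroup G] [Finite G]
    (h : ∀ g : G, 2 • (2 • g) = 0 → 2 • g = 0) :
    ¬ 2 ∣ Nat.card (dbl G).range := by
  intro hd
  have : Fact (Nat.Prime 2) := ⟨Nat.prime_two⟩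
  obtain ⟨x, hx⟩ := exists_prime_addOrderOf_dvd_card' 2 hd
  obtain ⟨g, hg⟩ := x.2
  have h1 : addOrderOf x • x = 0 := addOrderOf_nsmul_eq_zero x
  have h2 : addOrderOf x • (x : G) = 0 := by
    rw [← AddSubmonoidClass.coe_nsmul, h1]
    rfl
  rw [hx] at h2
  have h3 : (x : G) = 0 := by
    rw [← hg] at h2 ⊢
    exact h g h2
  have h4 : x = 0 := Subtype.ext h3
  rw [h4, addOrderOf_zero] at hx
  omega

theorem range_even {G : Type*} [AddCommGroup G] [Finite G] (g : G)
    (h1 : 2 • g ≠ 0) (h2 : 2 • (2 • g) = 0) :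
    2 ∣ Nat.card (dbl G).range := by
  set x : (dbl G).range := ⟨2 • g, ⟨g, rfl⟩⟩ with hx
  have h3 : addOrderOf x = 2 := by
    have : Fact (Nat.Prime 2) := ⟨Nat.prime_two⟩
    apply addOrderOf_eq_prime
    · apply Subtype.ext
      exact h2
    · intro h
      exact h1 (congrArg Subtype.val h)
  have h4 := addOrderOf_dvd_natCard x
  rwa [h3] at h4


section curve

variable {F : Type*} [Field F] [DecidableEq F]

/-- the curve y^2 = x^3 + a x + b -/
def E (a b : F) : WeierstrassCurve.Affine F := ⟨0, 0, 0, a, b⟩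

theorem E_eq (a b x y : F) : (E a b).Equation x y ↔ y ^ 2 = x ^ 3 + a * x + b := by
  rw [WeierstrassCurve.Affine.equation_iff]
  simp [E]

/-- number of points, with the point at infinity -/
noncomputable def cnt (a b : F) : ℕ :=
  Nat.card {P : F × F // P.2 ^ 2 = P.1 ^ 3 + a * P.1 + b} + 1

theorem E_disc (a b : F) : (E a b).Δ = -16 * (4 * a ^ 3 + 27 * b ^ 2) := by
  simp only [E, WeierstrassCurve.Δ, WeierstrassCurve.b₂, WeierstrassCurve.b₄,
    WeierstrassCurve.b₆, WeierstrassCurve.b₈]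
  ring

theorem E_ell {a b : F} (h2 : (2 : F) ≠ 0) (h : 4 * a ^ 3 + 27 * b ^ 2 ≠ 0) :
    (E a b).IsElliptic := by
  constructor
  rw [E_disc, isUnit_iff_ne_zero]
  have : (16 : F) ≠ 0 := by
    have : (16 : F) = 2 ^ 4 := by norm_num
    rw [this]
    exact pow_ne_zero _ h2
  exact mul_ne_zero (neg_ne_zero.mpr this) h

theorem cnt_eq [Finite F] {a b : F} (h2 : (2 : F) ≠ 0) (h : 4 * a ^ 3 + 27 * b ^ 2 ≠ 0) :
    Nat.card (E a b).Point = cnt a b := by
  have := E_ell h2 h
  rw [Nat.card_congr (WeierstrassCurve.Affine.pointEquiv (E a b))]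
  have h3 : Nat.card (WithZero {xy : F × F // (E a b).Equation xy.1 xy.2}) =
      Nat.card (Option {xy : F × F // (E a b).Equation xy.1 xy.2}) := rfl
  rw [h3, Finite.card_option]
  unfold cnt
  congr 1
  exact Nat.card_congr (Equiv.subtypeEquivRight fun P => E_eq a b P.1 P.2)


open WeierstrassCurve.Affine

theorem negY_E (a b x y : F) : (E a b).negY x y = -y := by
  simp [E, WeierstrassCurve.Affine.negY]

theorem two_some_zero {a b x : F} (h : (E a b).Nonsingular x 0) :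
    2 • (Point.some x 0 h : (E a b).Point) = 0 := by
  rw [two_nsmul]
  apply Point.add_self_of_Y_eq
  rw [negY_E, _root_.neg_zero]

theorem ne_neg {y : F} (h2 : (2 : F) ≠ 0) (hy : y ≠ 0) : y ≠ -y := by
  intro h
  have : 2 * y = 0 := by linear_combination h
  rcases mul_eq_zero.mp this with h | h
  · exact h2 h
  · exact hy h

theorem two_some {a b x y : F} (h2 : (2 : F) ≠ 0) (h : (E a b).Nonsingular x y) (hy : y ≠ 0) :
    ∃ (X Y m : F) (h' : (E a b).Nonsingular X Y),
      2 • (Point.some x y h : (E a b).Point) = Point.some X Y h' ∧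
      m * (2 * y) = 3 * x ^ 2 + a ∧ X = m ^ 2 - 2 * x ∧ Y = -(m * (X - x) + y) := by
  have hn : y ≠ (E a b).negY x y := by
    rw [negY_E]
    exact ne_neg h2 hy
  have hs : (E a b).slope x x y y = (3 * x ^ 2 + a) / (2 * y) := by
    rw [WeierstrassCurve.Affine.slope_of_Y_ne rfl hn, negY_E]
    simp only [E]
    congr 1 <;> ring
  refine ⟨_, _, (E a b).slope x x y y, _, by rw [two_nsmul]; exact Point.add_self_of_Y_ne hn,
    ?_, ?_, ?_⟩
  · rw [hs]
    field_simp
  · simp only [WeierstrassCurve.Affine.addX, E]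
    ring
  · simp only [WeierstrassCurve.Affine.addY, WeierstrassCurve.Affine.negAddY,
      WeierstrassCurve.Affine.negY, E]
    ring

theorem half_nec {a b e x y : F} (h2 : (2 : F) ≠ 0) (h : (E a b).Nonsingular x y)
    (h' : (E a b).Nonsingular e 0)
    (hh : 2 • (Point.some x y h : (E a b).Point) = Point.some e 0 h') :
    ∃ m : F, m ≠ 0 ∧ m ^ 2 = 2 * x + e ∧ (x - e) ^ 2 = 3 * e ^ 2 + a := by
  have hy : y ≠ 0 := by
    rintro rfl
    rw [two_some_zero h] at hh
    exact Point.some_ne_zero h' hh.symm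
  obtain ⟨X, Y, m, h'', h3, h4, h5, h6⟩ := two_some h2 h hy
  rw [h3] at hh
  simp only [Point.some.injEq] at hh
  obtain ⟨rfl, rfl⟩ := hh
  have e1 : y ^ 2 = x ^ 3 + a * x + b := (E_eq a b x y).mp h.1
  have e2 : (0 : F) ^ 2 = X ^ 3 + a * X + b := (E_eq a b X 0).mp h'.1
  have e3 : y = m * (x - X) := by linear_combination h6
  have e4 : m ^ 2 = 2 * x + X := by linear_combination -h5
  have hm : m ≠ 0 := by
    rintro rfl
    exact hy (by rw [e3]; ring)
  have hx : x - X ≠ 0 := by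
    intro h0
    exact hy (by rw [e3, h0]; ring)
  refine ⟨m, hm, e4, ?_⟩
  have e5 : (x - X) * ((x - X) ^ 2 - (3 * X ^ 2 + a)) = 0 := by
    have : m ^ 2 * (x - X) ^ 2 = x ^ 3 + a * x + b := by rw [← e1, e3]; ring
    rw [e4] at this
    linear_combination this - e2
  rcases mul_eq_zero.mp e5 with h | h
  · exact absurd h hx
  · linear_combination h


theorem half_nec2 {a b e e1 e2 x y : F} (h2 : (2 : F) ≠ 0) (h : (E a b).Nonsingular x y)
    (h' : (E a b).Nonsingular e 0) (hs : e + e1 + e2 = 0) (ha : a = e * e1 + e * e2 + e1 * e2)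
    (hh : 2 • (Point.some x y h : (E a b).Point) = Point.some e 0 h') :
    IsSquare (e - e1) ∧ IsSquare (e - e2) := by
  obtain ⟨m, hm, h3, h4⟩ := half_nec h2 h h' hh
  have he : e2 = -e - e1 := by linear_combination hs
  subst he
  subst ha
  constructor
  · refine ⟨(x - e + (e - e1)) / m, ?_⟩
    field_simp
    rw [h3]
    linear_combination -h4
  · refine ⟨(x - e + (e - (-e - e1))) / m, ?_⟩
    field_simp
    rw [h3]
    linear_combination -h4

theorem half_suf {a b e e1 e2 : F} (h2 : (2 : F) ≠ 0) (hns : 4 * a ^ 3 + 27 * b ^ 2 ≠ 0)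
    (h' : (E a b).Nonsingular e 0) (hs : e + e1 + e2 = 0) (ha : a = e * e1 + e * e2 + e1 * e2)
    (hb : b = -(e * e1 * e2))
    (h12 : e1 ≠ e2) (h01 : e ≠ e1) (h02 : e ≠ e2) (hu : IsSquare (e - e1))
    (hv : IsSquare (e - e2)) :
    ∃ Q : (E a b).Point, 2 • Q = Point.some e 0 h' := by
  obtain ⟨α, hα⟩ := hu
  obtain ⟨β, hβ⟩ := hv
  have he1 : e1 = e - α * α := by linear_combination -hα
  have he2 : e2 = e - β * β := by linear_combination -hβ
  have hα0 : α ≠ 0 := by rintro rfl; exact h01 (by linear_combination -he1)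
  have hβ0 : β ≠ 0 := by rintro rfl; exact h02 (by linear_combination -he2)
  have hαβ : α + β ≠ 0 := by
    intro h0
    apply h12
    rw [he1, he2]
    linear_combination (β - α) * h0
  have h3e : 3 * e = α * α + β * β := by
    rw [he1, he2] at hs
    linear_combination hs
  have hell := E_ell h2 hns
  have heq : (E a b).Equation (e + α * β) (α * β * (α + β)) := by
    rw [E_eq, ha, hb, he1, he2]
    linear_combination -(e + α * β) ^ 2 * h3e
  have hy : α * β * (α + β) ≠ 0 := mul_ne_zero (mul_ne_zero hα0 hβ0) hαβ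
  have hQ : (E a b).Nonsingular (e + α * β) (α * β * (α + β)) :=
    equation_iff_nonsingular.mp heq
  refine ⟨Point.some _ _ hQ, ?_⟩
  obtain ⟨X, Y, m, h'', h3, h4, h5, h6⟩ := two_some h2 hQ hy
  rw [h3]
  simp only [Point.some.injEq]
  have hm : m = α + β := by
    have h7 : 2 * (α * β * (α + β)) ≠ 0 := mul_ne_zero h2 hy
    have h8 : (m - (α + β)) * (2 * (α * β * (α + β))) = 0 := by
      rw [sub_mul, h4, ha, he1, he2]
      linear_combination (2 * e + 2 * α * β) * h3e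
    rcases mul_eq_zero.mp h8 with h | h
    · linear_combination h
    · exact absurd h h7
  have hX : X = e := by
    rw [h5, hm]
    linear_combination -h3e
  refine ⟨hX, ?_⟩
  rw [h6, hX, hm]
  ring


theorem ker_card {a b : F} (h2 : (2 : F) ≠ 0) (hns : 4 * a ^ 3 + 27 * b ^ 2 ≠ 0) [Finite F] :
    Nat.card (dbl (E a b).Point).ker = Nat.card {x : F // x ^ 3 + a * x + b = 0} + 1 := by
  have hell := E_ell h2 hns
  have heq : ∀ x : F, x ^ 3 + a * x + b = 0 → (E a b).Nonsingular x 0 := by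
    intro x hx
    refine equation_iff_nonsingular.mp ((E_eq a b x 0).mpr ?_)
    rw [hx]
    ring
  rw [← Finite.card_option]
  symm
  let f : Option {x : F // x ^ 3 + a * x + b = 0} → (dbl (E a b).Point).ker := fun o =>
    match o with
    | Option.none => 0
    | Option.some x => ⟨Point.some x.1 0 (heq x.1 x.2), two_some_zero _⟩
  refine Nat.card_congr (Equiv.ofBijective f ⟨?_, ?_⟩)
  · intro u v huv
    rcases u with _ | u <;> rcases v with _ | v
    · rfl
    · exact absurd (congrArg Subtype.val huv).symm (Point.some_ne_zero _)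
    · exact absurd (congrArg Subtype.val huv) (Point.some_ne_zero _)
    · have := congrArg Subtype.val huv
      simp only [f, Point.some.injEq] at this
      rw [Subtype.ext this.1]
  · rintro ⟨P, hP⟩
    have hP' : 2 • P = 0 := hP
    rcases P with _ | ⟨x, y, h⟩
    · exact ⟨none, rfl⟩
    · by_cases hy : y = 0
      · subst hy
        have h1 : x ^ 3 + a * x + b = 0 := by
          have := (E_eq a b x 0).mp h.1
          rw [← this]
          ring
        exact ⟨some ⟨x, h1⟩, rfl⟩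
      · obtain ⟨X, Y, m, h'', h3, -⟩ := two_some h2 h hy
        rw [h3] at hP'
        exact absurd hP' (Point.some_ne_zero _)

/-- quadruple zero, double nonzero: the double is a point of order two -/
theorem double_form {a b : F} (h2 : (2 : F) ≠ 0) (P : (E a b).Point) (h4 : 2 • (2 • P) = 0)
    (h : 2 • P ≠ 0) : ∃ (x y e : F) (hxy : (E a b).Nonsingular x y)
      (he : (E a b).Nonsingular e 0), e ^ 3 + a * e + b = 0 ∧
      2 • (Point.some x y hxy : (E a b).Point) = Point.some e 0 he := by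
  rcases P with _ | ⟨x, y, hxy⟩
  · exact absurd (smul_zero 2) h
  · by_cases hy : y = 0
    · subst hy
      exact absurd (two_some_zero hxy) h
    · obtain ⟨X, Y, m, h'', h3, -⟩ := two_some h2 hxy hy
      rw [h3] at h4
      by_cases hY : Y = 0
      · subst hY
        refine ⟨x, y, X, hxy, h'', ?_, h3⟩
        have := (E_eq a b X 0).mp h''.1
        rw [← this]
        ring
      · obtain ⟨X', Y', m', h5, h6, -⟩ := two_some h2 h'' hY
        rw [h6] at h4
        exact absurd h4 (Point.some_ne_zero _)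


theorem fin_pt [Finite F] {a b : F} (h2 : (2 : F) ≠ 0) (hns : 4 * a ^ 3 + 27 * b ^ 2 ≠ 0) :
    Finite (E a b).Point := by
  apply Nat.finite_of_card_ne_zero
  rw [cnt_eq h2 hns]
  exact Nat.succ_ne_zero _

theorem roots_one {a b e : F} (he : e ^ 3 + a * e + b = 0)
    (ho : ∀ x : F, x ^ 3 + a * x + b = 0 → x = e) :
    Nat.card {x : F // x ^ 3 + a * x + b = 0} = 1 := by
  rw [Nat.card_eq_one_iff_unique]
  exact ⟨⟨fun u v => Subtype.ext ((ho _ u.2).trans (ho _ v.2).symm)⟩, ⟨⟨e, he⟩⟩⟩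

theorem roots_three {a b e e1 e2 : F} (hs : e + e1 + e2 = 0)
    (ha : a = e * e1 + e * e2 + e1 * e2) (hb : b = -(e * e1 * e2))
    (h12 : e1 ≠ e2) (h01 : e ≠ e1) (h02 : e ≠ e2) :
    (∀ x : F, x ^ 3 + a * x + b = 0 ↔ x = e ∨ x = e1 ∨ x = e2) ∧
    Nat.card {x : F // x ^ 3 + a * x + b = 0} = 3 := by
  have h1 : ∀ x : F, x ^ 3 + a * x + b = 0 ↔ x = e ∨ x = e1 ∨ x = e2 := by
    intro x
    have h3 : x ^ 3 + a * x + b = (x - e) * ((x - e1) * (x - e2)) := by
      rw [ha, hb]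
      linear_combination x ^ 2 * hs
    rw [h3, mul_eq_zero, mul_eq_zero, sub_eq_zero, sub_eq_zero, sub_eq_zero]
  refine ⟨h1, ?_⟩
  have h2 : {x : F | x ^ 3 + a * x + b = 0} = {e, e1, e2} := by
    ext x
    simp only [Set.mem_ofPred_eq, Set.mem_insert_iff, Set.mem_singleton_iff]
    exact h1 x
  have h3 : Nat.card {x : F // x ^ 3 + a * x + b = 0} =
      Set.ncard {x : F | x ^ 3 + a * x + b = 0} := rfl
  rw [h3, h2]
  exact Set.ncard_eq_three.mpr ⟨e, e1, e2, h01, h02, h12, rfl⟩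

theorem cnt_two [Finite F] {a b e : F} (h2 : (2 : F) ≠ 0) (hns : 4 * a ^ 3 + 27 * b ^ 2 ≠ 0)
    (he : e ^ 3 + a * e + b = 0) (ho : ∀ x : F, x ^ 3 + a * x + b = 0 → x = e)
    (hc : ¬ IsSquare (3 * e ^ 2 + a)) : cnt a b % 4 = 2 := by
  have := fin_pt h2 hns
  have h1 := card_dbl (E a b).Point
  rw [ker_card h2 hns, roots_one he ho, cnt_eq h2 hns] at h1
  have h3 : ¬ 2 ∣ Nat.card (dbl (E a b).Point).range := by
    apply range_odd
    intro P h4
    by_contra h
    obtain ⟨x, y, e', hxy, he', h5, h6⟩ := double_form h2 P h4 h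
    obtain rfl := ho _ h5
    obtain ⟨m, -, -, h7⟩ := half_nec h2 hxy he' h6
    exact hc ⟨x - e', by rw [← h7, sq]⟩
  omega

theorem cnt_four [Finite F] {a b e e1 e2 : F} (h2 : (2 : F) ≠ 0)
    (hns : 4 * a ^ 3 + 27 * b ^ 2 ≠ 0) (hs : e + e1 + e2 = 0)
    (ha : a = e * e1 + e * e2 + e1 * e2) (hb : b = -(e * e1 * e2))
    (h12 : e1 ≠ e2) (h01 : e ≠ e1) (h02 : e ≠ e2)
    (k0 : ¬ (IsSquare (e - e1) ∧ IsSquare (e - e2)))
    (k1 : ¬ (IsSquare (e1 - e) ∧ IsSquare (e1 - e2)))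
    (k2 : ¬ (IsSquare (e2 - e) ∧ IsSquare (e2 - e1))) : cnt a b % 8 = 4 := by
  have := fin_pt h2 hns
  have h1 := card_dbl (E a b).Point
  obtain ⟨r1, r2⟩ := roots_three hs ha hb h12 h01 h02
  rw [ker_card h2 hns, r2, cnt_eq h2 hns] at h1
  have h3 : ¬ 2 ∣ Nat.card (dbl (E a b).Point).range := by
    apply range_odd
    intro P h4
    by_contra h
    obtain ⟨x, y, e', hxy, he', h5, h6⟩ := double_form h2 P h4 h
    rcases (r1 e').mp h5 with rfl | rfl | rfl
    · exact k0 (half_nec2 h2 hxy he' hs ha h6)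
    · exact k1 (half_nec2 h2 hxy he' (by linear_combination hs)
        (by rw [ha]; ring) h6)
    · exact k2 (half_nec2 h2 hxy he' (by linear_combination hs)
        (by rw [ha]; ring) h6)
  omega

theorem cnt_eight [Finite F] {a b e e1 e2 : F} (h2 : (2 : F) ≠ 0)
    (hns : 4 * a ^ 3 + 27 * b ^ 2 ≠ 0) (hs : e + e1 + e2 = 0)
    (ha : a = e * e1 + e * e2 + e1 * e2) (hb : b = -(e * e1 * e2))
    (h12 : e1 ≠ e2) (h01 : e ≠ e1) (h02 : e ≠ e2)
    (k1 : IsSquare (e - e1)) (k2 : IsSquare (e - e2)) : cnt a b % 8 = 0 := by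
  have := fin_pt h2 hns
  have hell := E_ell h2 hns
  have h1 := card_dbl (E a b).Point
  obtain ⟨r1, r2⟩ := roots_three hs ha hb h12 h01 h02
  rw [ker_card h2 hns, r2, cnt_eq h2 hns] at h1
  have he : (E a b).Nonsingular e 0 := by
    refine WeierstrassCurve.Affine.equation_iff_nonsingular.mp ((E_eq a b e 0).mpr ?_)
    rw [(r1 e).mpr (Or.inl rfl)]
    ring
  obtain ⟨Q, hQ⟩ := half_suf h2 hns he hs ha hb h12 h01 h02 k1 k2
  have h3 : 2 ∣ Nat.card (dbl (E a b).Point).range := by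
    apply range_even Q
    · rw [hQ]
      exact Point.some_ne_zero _
    · rw [hQ]
      exact two_some_zero _
  omega

end curve

/-! ### the three explicit fibres -/

section fibres

variable {F : Type*} [Field F] [DecidableEq F] [Finite F]

/-- number of points of the fibre with parameter c -/
noncomputable def K (t c : F) : ℕ := cnt (c - 3 * t ^ 2) (-t ^ 3 - (c - 3 * t ^ 2) * t)

/-- smooth fibre with count r modulo q -/
def Cls (t c : F) (q r : ℕ) : Prop := c ≠ 0 ∧ 9 * t ^ 2 - 4 * c ≠ 0 ∧ K t c % q = r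

theorem disc_c (t c : F) : 4 * (c - 3 * t ^ 2) ^ 3 + 27 * (-t ^ 3 - (c - 3 * t ^ 2) * t) ^ 2 =
    -(c ^ 2 * (9 * t ^ 2 - 4 * c)) := by
  ring

theorem ns_c {t c : F} (hc : c ≠ 0) (hd : 9 * t ^ 2 - 4 * c ≠ 0) :
    4 * (c - 3 * t ^ 2) ^ 3 + 27 * (-t ^ 3 - (c - 3 * t ^ 2) * t) ^ 2 ≠ 0 := by
  rw [disc_c]
  exact neg_ne_zero.mpr (mul_ne_zero (pow_ne_zero _ hc) hd)

/-- class of c and 9 t^2 - 4 c nonsquares -/
theorem class_two {t c : F} (h2 : (2 : F) ≠ 0) (hc : ¬ IsSquare c)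
    (hd : ¬ IsSquare (9 * t ^ 2 - 4 * c)) :
    Cls t c 4 2 := by
  have hc0 : c ≠ 0 := by rintro rfl; exact hc ⟨0, by ring⟩
  have hd0 : 9 * t ^ 2 - 4 * c ≠ 0 := by
    intro h
    rw [h] at hd
    exact hd ⟨0, by ring⟩
  refine ⟨hc0, hd0, cnt_two (e := t) h2 (ns_c hc0 hd0) (by ring) ?_ ?_⟩
  · intro x hx
    by_contra hxt
    have h1 : (x - t) * (x ^ 2 + t * x + t ^ 2 + (c - 3 * t ^ 2)) = 0 := by
      linear_combination hx
    rcases mul_eq_zero.mp h1 with h | h
    · exact hxt (sub_eq_zero.mp h)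
    · exact hd ⟨2 * x + t, by linear_combination -4 * h⟩
  · intro h
    apply hc
    have : 3 * t ^ 2 + (c - 3 * t ^ 2) = c := by ring
    rwa [this] at h

theorem root_data {t r1 r2 : F} (hs : r1 + r2 = -(3 * t)) :
    t + (t + r1) + (t + r2) = 0 ∧
    r1 * r2 - 3 * t ^ 2 = t * (t + r1) + t * (t + r2) + (t + r1) * (t + r2) ∧
    -t ^ 3 - (r1 * r2 - 3 * t ^ 2) * t = -(t * (t + r1) * (t + r2)) := by
  refine ⟨by linear_combination hs, by linear_combination -2 * t * hs, ?_⟩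
  linear_combination t ^ 2 * hs

theorem d_r {t r1 r2 : F} (hs : r1 + r2 = -(3 * t)) (h12 : r1 ≠ r2) :
    9 * t ^ 2 - 4 * (r1 * r2) ≠ 0 := by
  have : 9 * t ^ 2 - 4 * (r1 * r2) = (r1 - r2) ^ 2 := by
    linear_combination (-(3 * t) + (r1 + r2)) * (-hs)
  rw [this]
  exact pow_ne_zero _ (sub_ne_zero.mpr h12)

theorem ns_r {t r1 r2 : F} (hs : r1 + r2 = -(3 * t)) (h1 : r1 ≠ 0) (h2 : r2 ≠ 0)
    (h12 : r1 ≠ r2) :
    4 * (r1 * r2 - 3 * t ^ 2) ^ 3 + 27 * (-t ^ 3 - (r1 * r2 - 3 * t ^ 2) * t) ^ 2 ≠ 0 := by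
  exact ns_c (mul_ne_zero h1 h2) (d_r hs h12)

theorem class_four {t r1 r2 : F} (h2 : (2 : F) ≠ 0) (hs : r1 + r2 = -(3 * t)) (hr1 : r1 ≠ 0)
    (hr2 : r2 ≠ 0) (h12 : r1 ≠ r2)
    (k0 : ¬ (IsSquare (-r1) ∧ IsSquare (-r2)))
    (k1 : ¬ (IsSquare r1 ∧ IsSquare (r1 - r2)))
    (k2 : ¬ (IsSquare r2 ∧ IsSquare (r2 - r1))) :
    Cls t (r1 * r2) 8 4 := by
  obtain ⟨d1, d2, d3⟩ := root_data hs
  refine ⟨mul_ne_zero hr1 hr2, d_r hs h12, ?_⟩
  refine cnt_four (e := t) (e1 := t + r1) (e2 := t + r2) h2 (ns_r hs hr1 hr2 h12) d1 d2 d3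
    (by simpa using h12) (by simpa using hr1) (by simpa using hr2) ?_ ?_ ?_
  · have e1 : t - (t + r1) = -r1 := by ring
    have e2 : t - (t + r2) = -r2 := by ring
    rwa [e1, e2]
  · have e1 : t + r1 - t = r1 := by ring
    have e2 : t + r1 - (t + r2) = r1 - r2 := by ring
    rwa [e1, e2]
  · have e1 : t + r2 - t = r2 := by ring
    have e2 : t + r2 - (t + r1) = r2 - r1 := by ring
    rwa [e1, e2]

theorem class_eight0 {t r1 r2 : F} (h2 : (2 : F) ≠ 0) (hs : r1 + r2 = -(3 * t)) (hr1 : r1 ≠ 0)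
    (hr2 : r2 ≠ 0) (h12 : r1 ≠ r2) (k1 : IsSquare (-r1)) (k2 : IsSquare (-r2)) :
    Cls t (r1 * r2) 8 0 := by
  obtain ⟨d1, d2, d3⟩ := root_data hs
  refine ⟨mul_ne_zero hr1 hr2, d_r hs h12, ?_⟩
  refine cnt_eight (e := t) (e1 := t + r1) (e2 := t + r2) h2 (ns_r hs hr1 hr2 h12) d1 d2 d3
    (by simpa using h12) (by simpa using hr1) (by simpa using hr2) ?_ ?_
  · have e1 : t - (t + r1) = -r1 := by ring
    rwa [e1]
  · have e2 : t - (t + r2) = -r2 := by ring
    rwa [e2]

theorem class_eight1 {t r1 r2 : F} (h2 : (2 : F) ≠ 0) (hs : r1 + r2 = -(3 * t)) (hr1 : r1 ≠ 0)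
    (hr2 : r2 ≠ 0) (h12 : r1 ≠ r2) (k1 : IsSquare r1) (k2 : IsSquare (r1 - r2)) :
    Cls t (r1 * r2) 8 0 := by
  obtain ⟨d1, d2, d3⟩ := root_data hs
  refine ⟨mul_ne_zero hr1 hr2, d_r hs h12, ?_⟩
  refine cnt_eight (e := t + r1) (e1 := t) (e2 := t + r2) h2 (ns_r hs hr1 hr2 h12)
    (by linear_combination d1) (by rw [d2]; ring) (by rw [d3]; ring)
    (by simpa using hr2) (by simpa using hr1) (by simpa using h12) ?_ ?_
  · have e1 : t + r1 - t = r1 := by ring
    rwa [e1]
  · have e2 : t + r1 - (t + r2) = r1 - r2 := by ring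
    rwa [e2]

end fibres

/-! ### squares -/

section squares

variable {F : Type*} [Field F]

theorem nsq_of_mul {a b c : F} (ha : ¬ IsSquare a) (hb : b ≠ 0) (h : c = a * b ^ 2) :
    ¬ IsSquare c := by
  rintro ⟨d, hd⟩
  apply ha
  refine ⟨d / b, ?_⟩
  field_simp
  rw [← h, hd]
  ring

theorem nsq_ne_zero {a : F} (ha : ¬ IsSquare a) : a ≠ 0 := by
  rintro rfl
  exact ha ⟨0, by ring⟩

theorem sq_of_nsq [Fintype F] {a b : F} (ha : ¬ IsSquare a)
    (hb : ¬ IsSquare b) : IsSquare (a * b) := by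
  classical
  have h0 := nsq_ne_zero ha
  have h1 := nsq_ne_zero hb
  have e1 := (quadraticChar_neg_one_iff_not_isSquare (F := F)).mpr ha
  have e2 := (quadraticChar_neg_one_iff_not_isSquare (F := F)).mpr hb
  rw [← quadraticChar_one_iff_isSquare (mul_ne_zero h0 h1), map_mul, e1, e2]
  norm_num

theorem sq_of_mul {a b c : F} (ha : IsSquare a) (h : c = a * b ^ 2) :
    IsSquare c := by
  obtain ⟨d, hd⟩ := ha
  exact ⟨d * b, by rw [h, hd]; ring⟩

theorem nsq_mul_sq {a b : F} (ha : ¬ IsSquare a) (hb : IsSquare b) (hb0 : b ≠ 0) :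
    ¬ IsSquare (a * b) := by
  obtain ⟨d, rfl⟩ := hb
  refine nsq_of_mul (b := d) ha ?_ (by ring)
  rintro rfl
  exact hb0 (by ring)

end squares

section three

variable {F : Type*} [Field F] [DecidableEq F] [Fintype F]

theorem three_mod {t x : F} (h2 : (2 : F) ≠ 0) (h3 : (3 : F) ≠ 0) (h5 : (5 : F) ≠ 0)
    (h17 : (17 : F) ≠ 0) (hm : ¬ IsSquare (-1 : F)) (ht : t ≠ 0) (hx : ¬ IsSquare x)
    (hx1 : IsSquare (x - 1)) (hx2 : 1 + x ≠ 0) :
    Cls t ((3 * t) ^ 2 * x / 4) 4 2 ∧ Cls t (x * (3 * t) ^ 2 / (1 + x) ^ 2) 8 4 ∧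
      Cls t (225 * (3 * t) ^ 2 / 1156) 8 0 := by
  have h4 : (4 : F) ≠ 0 := by
    have : (4 : F) = 2 ^ 2 := by norm_num
    rw [this]; exact pow_ne_zero _ h2
  have h34 : (34 : F) ≠ 0 := by
    have : (34 : F) = 2 * 17 := by norm_num
    rw [this]; exact mul_ne_zero h2 h17
  have h3t : 3 * t ≠ 0 := mul_ne_zero h3 ht
  have hx0 : x ≠ 0 := nsq_ne_zero hx
  have hx10 : x - 1 ≠ 0 := by
    intro h
    apply hx
    rw [sub_eq_zero.mp h]
    exact ⟨1, by ring⟩
  have hx1' : ¬ IsSquare (1 - x) := by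
    have : 1 - x = -1 * (x - 1) := by ring
    rw [this]
    exact nsq_mul_sq hm hx1 hx10
  refine ⟨?_, ?_, ?_⟩
  · apply class_two h2
    · exact nsq_of_mul (b := 3 * t / 2) hx (div_ne_zero h3t h2) (by field_simp; norm_num)
    · refine nsq_of_mul (b := 3 * t) hx1' h3t (by field_simp; ring)
  · have e : x * (3 * t) ^ 2 / (1 + x) ^ 2 = (-(3 * t) / (1 + x)) * (-(3 * t) * x / (1 + x)) := by
      field_simp
    rw [e]
    have hr1 : -(3 * t) / (1 + x) ≠ 0 := div_ne_zero (neg_ne_zero.mpr h3t) hx2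
    apply class_four h2
    · field_simp
      ring
    · exact hr1
    · exact div_ne_zero (mul_ne_zero (neg_ne_zero.mpr h3t) hx0) hx2
    · intro h
      apply hx10
      have : (-(3 * t) / (1 + x)) * (x - 1) = 0 := by
        have e3 : -(3 * t) * x / (1 + x) = (-(3 * t) / (1 + x)) * x := by ring
        rw [e3] at h
        linear_combination -h
      exact (mul_eq_zero.mp this).resolve_left hr1
    · rintro ⟨u, v⟩
      refine nsq_of_mul (b := 3 * t / (1 + x)) hx (div_ne_zero h3t hx2) ?_ (u.mul v)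
      field_simp
    · rintro ⟨u, v⟩
      refine nsq_of_mul (b := 3 * t / (1 + x)) hx1' (div_ne_zero h3t hx2) ?_ (u.mul v)
      field_simp
      ring
    · rintro ⟨u, v⟩
      refine nsq_of_mul (b := 3 * t / (1 + x)) (nsq_mul_sq hx hx1 hx10)
        (div_ne_zero h3t hx2) ?_ (u.mul v)
      field_simp
      ring
  · have e : 225 * (3 * t) ^ 2 / 1156 = (25 * (-(3 * t) / 34)) * (9 * (-(3 * t) / 34)) := by
      have : (1156 : F) = 34 * 34 := by norm_num
      rw [this]
      field_simp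
      ring
    rw [e]
    set k := -(3 * t) / 34 with hk
    have hk0 : k ≠ 0 := div_ne_zero (neg_ne_zero.mpr h3t) h34
    have hkt : 34 * k = -(3 * t) := by rw [hk]; field_simp
    have h25 : (25 : F) ≠ 0 := by
      have : (25 : F) = 5 ^ 2 := by norm_num
      rw [this]; exact pow_ne_zero _ h5
    have h9 : (9 : F) ≠ 0 := by
      have : (9 : F) = 3 ^ 2 := by norm_num
      rw [this]; exact pow_ne_zero _ h3
    have h16 : (16 : F) ≠ 0 := by
      have : (16 : F) = 2 ^ 4 := by norm_num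
      rw [this]; exact pow_ne_zero _ h2
    have hs : 25 * k + 9 * k = -(3 * t) := by rw [← hkt]; ring
    have hne : 25 * k ≠ 9 * k := by
      intro h
      have : 16 * k = 0 := by linear_combination h
      exact (mul_ne_zero h16 hk0) this
    by_cases hsq : IsSquare k
    · apply class_eight1 h2 hs (mul_ne_zero h25 hk0) (mul_ne_zero h9 hk0) hne
      · exact sq_of_mul (b := 5) hsq (by ring)
      · exact sq_of_mul (b := 4) hsq (by ring)
    · have hsq' : IsSquare (-k) := by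
        have := sq_of_nsq hm hsq
        rwa [neg_one_mul] at this
      apply class_eight0 h2 hs (mul_ne_zero h25 hk0) (mul_ne_zero h9 hk0) hne
      · exact sq_of_mul (b := 5) hsq' (by ring)
      · exact sq_of_mul (b := 3) hsq' (by ring)

theorem one_mod {t m : F} (h2 : (2 : F) ≠ 0) (h3 : (3 : F) ≠ 0) (h5 : (5 : F) ≠ 0)
    (h7 : (7 : F) ≠ 0) (hi : IsSquare (-1 : F)) (ht : t ≠ 0) (hm : ¬ IsSquare m)
    (hm2 : m ^ 2 + 1 ≠ 0) :
    Cls t (-(3 * t * (m - 1)) ^ 2 / (16 * m)) 4 2 ∧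
      ((Cls t (144 * (3 * t) ^ 2 / 625) 8 0 ∧
          Cls t (-(3 * t * (m ^ 2 - 1)) ^ 2 / (16 * m ^ 2)) 8 4) ∨
        (Cls t (144 * (3 * t) ^ 2 / 625) 8 4 ∧
          Cls t (-(3 * t * (m ^ 2 - 1)) ^ 2 / (16 * m ^ 2)) 8 0)) := by
  have h4 : (4 : F) ≠ 0 := by
    have : (4 : F) = 2 ^ 2 := by norm_num
    rw [this]; exact pow_ne_zero _ h2
  have h16 : (16 : F) ≠ 0 := by
    have : (16 : F) = 2 ^ 4 := by norm_num
    rw [this]; exact pow_ne_zero _ h2
  have h25 : (25 : F) ≠ 0 := by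
    have : (25 : F) = 5 ^ 2 := by norm_num
    rw [this]; exact pow_ne_zero _ h5
  have h9 : (9 : F) ≠ 0 := by
    have : (9 : F) = 3 ^ 2 := by norm_num
    rw [this]; exact pow_ne_zero _ h3
  have h3t : 3 * t ≠ 0 := mul_ne_zero h3 ht
  have hm0 : m ≠ 0 := nsq_ne_zero hm
  have hi0 : (-1 : F) ≠ 0 := by simp
  have hm1 : m - 1 ≠ 0 := by
    intro h
    apply hm
    rw [sub_eq_zero.mp h]
    exact ⟨1, by ring⟩
  have hm3 : m + 1 ≠ 0 := by
    intro h
    apply hm
    have : m = -1 := by linear_combination h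
    rw [this]
    exact hi
  have hmi : ¬ IsSquare (-m) := by
    have := nsq_mul_sq hm hi hi0
    rwa [mul_neg_one] at this
  have hneg : ∀ a : F, IsSquare a → IsSquare (-a) := by
    intro a ha
    have := hi.mul ha
    rwa [neg_one_mul] at this
  have hneg' : ∀ a : F, ¬ IsSquare a → ¬ IsSquare (-a) := by
    intro a ha hb
    have := hneg _ hb
    rw [neg_neg] at this
    exact ha this
  -- fibre with roots k*16, k*9
  have two : ∀ r1 r2 : F, r1 + r2 = -(3 * t) → r1 ≠ 0 → r2 ≠ 0 → r1 ≠ r2 →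
      IsSquare r1 → IsSquare r2 → Cls t (r1 * r2) 8 0 := by
    intro r1 r2 hs k1 k2 k3 k4 k5
    exact class_eight0 h2 hs k1 k2 k3 (hneg _ k4) (hneg _ k5)
  have two' : ∀ r1 r2 : F, r1 + r2 = -(3 * t) → r1 ≠ 0 → r2 ≠ 0 → r1 ≠ r2 →
      ¬ IsSquare r1 → ¬ IsSquare r2 → Cls t (r1 * r2) 8 4 := by
    intro r1 r2 hs k1 k2 k3 k4 k5
    exact class_four h2 hs k1 k2 k3 (fun h => hneg' _ k4 h.1) (fun h => k4 h.1) (fun h => k5 h.1)
  have eA : 144 * (3 * t) ^ 2 / 625 = (16 * (-(3 * t) / 25)) * (9 * (-(3 * t) / 25)) := by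
    have : (625 : F) = 25 * 25 := by norm_num
    rw [this]
    field_simp
    ring
  have eB : -(3 * t * (m ^ 2 - 1)) ^ 2 / (16 * m ^ 2) =
      (3 * t * (m - 1) ^ 2 / (4 * m)) * (-(3 * t * (m + 1) ^ 2) / (4 * m)) := by
    have : (16 : F) = 4 * 4 := by norm_num
    rw [this]
    field_simp
    ring
  have sA : 16 * (-(3 * t) / 25) + 9 * (-(3 * t) / 25) = -(3 * t) := by
    field_simp
    ring
  have sB : 3 * t * (m - 1) ^ 2 / (4 * m) + -(3 * t * (m + 1) ^ 2) / (4 * m) = -(3 * t) := by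
    field_simp
    ring
  have hk0 : -(3 * t) / 25 ≠ 0 := div_ne_zero (neg_ne_zero.mpr h3t) h25
  have nA : 16 * (-(3 * t) / 25) ≠ 9 * (-(3 * t) / 25) := by
    intro h
    have : 7 * (-(3 * t) / 25) = 0 := by linear_combination h
    exact (mul_ne_zero h7 hk0) this
  have nB : 3 * t * (m - 1) ^ 2 / (4 * m) ≠ -(3 * t * (m + 1) ^ 2) / (4 * m) := by
    intro h
    have h' : 3 * t * (m - 1) ^ 2 = -(3 * t * (m + 1) ^ 2) := by
      field_simp at h
      linear_combination 3 * t * h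
    have : (3 * t) * (2 * (m ^ 2 + 1)) = 0 := by linear_combination h'
    exact (mul_ne_zero h3t (mul_ne_zero h2 hm2)) this
  have zB1 : 3 * t * (m - 1) ^ 2 / (4 * m) ≠ 0 :=
    div_ne_zero (mul_ne_zero h3t (pow_ne_zero _ hm1)) (mul_ne_zero h4 hm0)
  have zB2 : -(3 * t * (m + 1) ^ 2) / (4 * m) ≠ 0 :=
    div_ne_zero (neg_ne_zero.mpr (mul_ne_zero h3t (pow_ne_zero _ hm3))) (mul_ne_zero h4 hm0)
  refine ⟨?_, ?_⟩
  · apply class_two h2
    · exact nsq_of_mul (b := 3 * t * (m - 1) / (4 * m)) hmi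
        (div_ne_zero (mul_ne_zero h3t hm1) (mul_ne_zero h4 hm0)) (by field_simp; norm_num)
    · refine nsq_of_mul (b := 3 * t * (m + 1) / (2 * m)) hm
        (div_ne_zero (mul_ne_zero h3t hm3) (mul_ne_zero h2 hm0)) (by field_simp; ring)
  · rw [eA, eB]
    by_cases hs : IsSquare (3 * t)
    · left
      constructor
      · exact two _ _ sA (mul_ne_zero h16 hk0) (mul_ne_zero h9 hk0) nA
          (sq_of_mul (b := 4 / 5) (hneg _ hs) (by
            have : (25 : F) = 5 * 5 := by norm_num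
            rw [this]; field_simp; norm_num))
          (sq_of_mul (b := 3 / 5) (hneg _ hs) (by
            have : (25 : F) = 5 * 5 := by norm_num
            rw [this]; field_simp; norm_num))
      · have hsm : ¬ IsSquare (m * (3 * t)) := nsq_mul_sq hm hs h3t
        exact two' _ _ sB zB1 zB2 nB
          (nsq_of_mul (b := (m - 1) / (2 * m)) hsm (div_ne_zero hm1 (mul_ne_zero h2 hm0))
            (by field_simp; norm_num))
          (nsq_of_mul (b := (m + 1) / (2 * m)) (hneg' _ hsm)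
            (div_ne_zero hm3 (mul_ne_zero h2 hm0)) (by field_simp; norm_num))
    · right
      constructor
      · exact two' _ _ sA (mul_ne_zero h16 hk0) (mul_ne_zero h9 hk0) nA
          (nsq_of_mul (b := 4 / 5) (hneg' _ hs) (div_ne_zero h4 h5) (by
            have : (25 : F) = 5 * 5 := by norm_num
            rw [this]; field_simp; norm_num))
          (nsq_of_mul (b := 3 / 5) (hneg' _ hs) (div_ne_zero h3 h5) (by
            have : (25 : F) = 5 * 5 := by norm_num
            rw [this]; field_simp; norm_num))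
      · have hsm : IsSquare (m * (3 * t)) := sq_of_nsq hm hs
        exact two _ _ sB zB1 zB2 nB
          (sq_of_mul (b := (m - 1) / (2 * m)) hsm (by field_simp; norm_num))
          (sq_of_mul (b := (m + 1) / (2 * m)) (hneg _ hsm) (by field_simp; norm_num))

end three

end Pool.Agent.Lib.IsoFib
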