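import Mathlib
import Pool.Agent.Lib.MP_09b6ec_lc.Group

/-!
# Point counts modulo 16 and quadratic twists

Continuation of `Group`: full halving of the points of order two (16 divides the number of points),
exactly one halvable point of order two which is not divisible by four (8 modulo 16), and the sum of
the point counts of a curve and its quadratic twist.
-/

set_option linter.unusedSectionVars false

namespace Pool.Agent.Lib.IsoFib

theorem card_ker_range {G : Type*} [AddCommGroup G] [Finite G]
    (h : ∀ g : G, 2 • g = 0 → ∃ k : G, 2 • k = g) :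
    Nat.card (dbl G).ker ∣ Nat.card (dbl G).range := by
  apply AddSubgroup.card_dvd_of_le
  intro g hg
  obtain ⟨k, hk⟩ := h g hg
  exact ⟨k, hk⟩

/-- the multiples of two have exactly one element of order two, which is not divisible by four -/
theorem range_two_odd {G : Type*} [AddCommGroup G] [Finite G] (T : G) (hT : T ≠ 0)
    (hT2 : 2 • T = 0) (hT' : ∃ k : G, 2 • k = T)
    (h1 : ∀ k : G, 2 • (2 • k) = 0 → 2 • k = 0 ∨ 2 • k = T)
    (h2 : ∀ k : G, 2 • (2 • k) ≠ T) :
    ∃ m : ℕ, Nat.card (dbl G).range = 2 * (2 * m + 1) := by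
  set H := (dbl G).range with hH
  have c1 := card_dbl H
  have hker : Nat.card (dbl H).ker = 2 := by
    rw [Nat.card_eq_two_iff]
    obtain ⟨k, hk⟩ := hT'
    refine ⟨⟨0, by simp⟩, ⟨⟨T, ⟨k, hk⟩⟩, ?_⟩, ?_, ?_⟩
    · change 2 • (⟨T, ⟨k, hk⟩⟩ : H) = 0
      apply Subtype.ext
      exact hT2
    · intro h
      apply hT
      have h3 := congrArg Subtype.val h
      have h4 := congrArg Subtype.val h3
      exact h4.symm
    · ext x
      simp only [Set.mem_insert_iff, Set.mem_singleton_iff, Set.mem_univ, iff_true]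
      obtain ⟨⟨g, ⟨l, hl⟩⟩, hx⟩ := x
      have hx' : 2 • (⟨g, ⟨l, hl⟩⟩ : H) = 0 := hx
      have hx2 : 2 • g = 0 := congrArg Subtype.val hx'
      have hl' : 2 • l = g := hl
      rw [← hl'] at hx2
      rcases h1 l hx2 with h | h
      · left
        apply Subtype.ext
        apply Subtype.ext
        change g = 0
        rw [← hl', h]
      · right
        apply Subtype.ext
        apply Subtype.ext
        change g = T
        rw [← hl', h]
  have hodd : ¬ 2 ∣ Nat.card (dbl H).range := by
    apply range_odd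
    rintro ⟨g, ⟨l, hl⟩⟩ hg
    have hl' : 2 • l = g := hl
    have hg' : 2 • (2 • g) = 0 := congrArg Subtype.val hg
    apply Subtype.ext
    change 2 • g = 0
    rcases h1 g hg' with h | h
    · exact h
    · exfalso
      apply h2 l
      rw [hl', h]
  rw [hker] at c1
  refine ⟨Nat.card (dbl H).range / 2, ?_⟩
  rw [c1]
  omega

section curve

variable {F : Type*} [Field F] [DecidableEq F]

open WeierstrassCurve.Affine

theorem double_x_sq {a b e x y X Y : F} (h2 : (2 : F) ≠ 0) (h : (E a b).Nonsingular x y)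
    (h' : (E a b).Nonsingular X Y) (he : e ^ 3 + a * e + b = 0)
    (hh : 2 • (Point.some x y h : (E a b).Point) = Point.some X Y h') : IsSquare (X - e) := by
  have hy : y ≠ 0 := by
    rintro rfl
    rw [two_some_zero h] at hh
    exact Point.some_ne_zero h' hh.symm
  obtain ⟨X', Y', m, h'', h3, h4, h5, h6⟩ := two_some h2 h hy
  rw [h3] at hh
  simp only [Point.some.injEq] at hh
  obtain ⟨rfl, rfl⟩ := hh
  have e1 : y ^ 2 = x ^ 3 + a * x + b := (E_eq a b x y).mp h.1
  refine ⟨(x ^ 2 - 2 * e * x - 2 * e ^ 2 - a) / (2 * y), ?_⟩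
  have hm : m = (3 * x ^ 2 + a) / (2 * y) := by
    field_simp
    linear_combination h4
  rw [h5, hm]
  have h2y : (2 * y) ^ 2 ≠ 0 := pow_ne_zero _ (mul_ne_zero h2 hy)
  have key : (3 * x ^ 2 + a) ^ 2 - (2 * x + e) * (2 * y) ^ 2 =
      (x ^ 2 - 2 * e * x - 2 * e ^ 2 - a) ^ 2 := by
    linear_combination -4 * (2 * x + e) * e1 - (8 * x + 4 * e) * he
  field_simp
  linear_combination key

/-- all points of order two are halvable -/
theorem cnt_sixteen [Finite F] {a b e e1 e2 : F} (h2 : (2 : F) ≠ 0)
    (hns : 4 * a ^ 3 + 27 * b ^ 2 ≠ 0) (hs : e + e1 + e2 = 0)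
    (ha : a = e * e1 + e * e2 + e1 * e2) (hb : b = -(e * e1 * e2))
    (h12 : e1 ≠ e2) (h01 : e ≠ e1) (h02 : e ≠ e2)
    (k0 : IsSquare (e - e1) ∧ IsSquare (e - e2))
    (k1 : IsSquare (e1 - e) ∧ IsSquare (e1 - e2))
    (k2 : IsSquare (e2 - e) ∧ IsSquare (e2 - e1)) : cnt a b % 16 = 0 := by
  have := fin_pt h2 hns
  have hell := E_ell h2 hns
  have h1 := card_dbl (E a b).Point
  obtain ⟨r1, r2⟩ := roots_three hs ha hb h12 h01 h02
  have hk := ker_card h2 hns
  rw [r2] at hk
  have h3 : Nat.card (dbl (E a b).Point).ker ∣ Nat.card (dbl (E a b).Point).range := by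
    apply card_ker_range
    intro P hP
    rcases P with _ | ⟨x, y, h⟩
    · exact ⟨0, smul_zero 2⟩
    · by_cases hy : y = 0
      · subst hy
        have h4 : x ^ 3 + a * x + b = 0 := by
          have := (E_eq a b x 0).mp h.1
          rw [← this]
          ring
        rcases (r1 x).mp h4 with rfl | rfl | rfl
        · exact half_suf h2 hns h hs ha hb h12 h01 h02 k0.1 k0.2
        · exact half_suf h2 hns h (by linear_combination hs) (by rw [ha]; ring)
            (by rw [hb]; ring) h02 h01.symm h12 k1.1 k1.2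
        · exact half_suf h2 hns h (by linear_combination hs) (by rw [ha]; ring)
            (by rw [hb]; ring) h01 h02.symm h12.symm k2.1 k2.2
      · obtain ⟨X, Y, m, h'', h3, -⟩ := two_some h2 h hy
        rw [h3] at hP
        exact absurd hP (Point.some_ne_zero _)
  rw [hk] at h1 h3
  rw [cnt_eq h2 hns] at h1
  omega

/-- exactly one point of order two is halvable, and it is not divisible by four -/
theorem cnt_eight16 [Finite F] {a b e e1 e2 r : F} (h2 : (2 : F) ≠ 0)
    (hns : 4 * a ^ 3 + 27 * b ^ 2 ≠ 0) (hs : e + e1 + e2 = 0)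
    (ha : a = e * e1 + e * e2 + e1 * e2) (hb : b = -(e * e1 * e2))
    (h12 : e1 ≠ e2) (h01 : e ≠ e1) (h02 : e ≠ e2)
    (k0 : IsSquare (e - e1) ∧ IsSquare (e - e2))
    (k1 : ¬ (IsSquare (e1 - e) ∧ IsSquare (e1 - e2)))
    (k2 : ¬ (IsSquare (e2 - e) ∧ IsSquare (e2 - e1)))
    (hr : r ^ 2 = (e - e1) * (e - e2)) (r1 : ¬ IsSquare r) (r2 : ¬ IsSquare (-r)) :
    cnt a b % 16 = 8 := by
  have := fin_pt h2 hns
  have hell := E_ell h2 hns
  have h1 := card_dbl (E a b).Point
  obtain ⟨s1, s2⟩ := roots_three hs ha hb h12 h01 h02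
  have hk := ker_card h2 hns
  rw [s2] at hk
  have he0 : e ^ 3 + a * e + b = 0 := (s1 e).mpr (Or.inl rfl)
  have he : (E a b).Nonsingular e 0 := by
    refine WeierstrassCurve.Affine.equation_iff_nonsingular.mp ((E_eq a b e 0).mpr ?_)
    rw [he0]
    ring
  -- doubles of order two
  have key : ∀ P : (E a b).Point, 2 • (2 • P) = 0 → 2 • P = 0 ∨
      2 • P = (Point.some e 0 he : (E a b).Point) := by
    intro P hP
    by_cases h : 2 • P = 0
    · exact Or.inl h
    · right
      obtain ⟨X, Y, e', hXY, he', h5, h6⟩ : ∃ (x y e' : F) (hxy : (E a b).Nonsingular x y)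
          (he' : (E a b).Nonsingular e' 0), 2 • P = (Point.some e' 0 he' : (E a b).Point) ∧
          2 • (Point.some x y hxy : (E a b).Point) = Point.some e' 0 he' := by
        rcases P with _ | ⟨x, y, hxy⟩
        · exact absurd (smul_zero 2) h
        · by_cases hy : y = 0
          · subst hy
            exact absurd (two_some_zero hxy) h
          · obtain ⟨X, Y, m, h'', h3, -⟩ := two_some h2 hxy hy
            rw [h3] at hP
            by_cases hY : Y = 0
            · subst hY
              exact ⟨x, y, X, hxy, h'', h3, h3⟩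
            · obtain ⟨X', Y', m', h5, h6, -⟩ := two_some h2 h'' hY
              rw [h6] at hP
              exact absurd hP (Point.some_ne_zero _)
      have h7 : e' ^ 3 + a * e' + b = 0 := by
        have := (E_eq a b e' 0).mp he'.1
        rw [← this]
        ring
      rcases (s1 e').mp h7 with rfl | rfl | rfl
      · exact h5
      · exact absurd (half_nec2 h2 hXY he' (by linear_combination hs) (by rw [ha]; ring) h6) k1
      · exact absurd (half_nec2 h2 hXY he' (by linear_combination hs) (by rw [ha]; ring) h6) k2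
  obtain ⟨Q, hQ⟩ := half_suf h2 hns he hs ha hb h12 h01 h02 k0.1 k0.2
  obtain ⟨m, hm⟩ := range_two_odd (G := (E a b).Point) (Point.some e 0 he)
    (Point.some_ne_zero _) (two_some_zero _) ⟨Q, hQ⟩ key (by
      intro P hP
      rcases P with _ | ⟨x, y, hxy⟩
      · change 2 • (2 • (0 : (E a b).Point)) = _ at hP
        rw [smul_zero, smul_zero] at hP
        exact Point.some_ne_zero _ hP.symm
      · by_cases hy : y = 0
        · subst hy
          rw [two_some_zero, smul_zero] at hP
          exact Point.some_ne_zero _ hP.symm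
        · obtain ⟨X, Y, m, h'', h3, -⟩ := two_some h2 hxy hy
          have h4 := double_x_sq h2 hxy h'' he0 h3
          rw [h3] at hP
          obtain ⟨m', -, -, h5⟩ := half_nec h2 h'' he hP
          have h6 : (X - e) ^ 2 = r ^ 2 := by
            rw [h5, hr, ha]
            linear_combination 2 * e * hs
          rcases sq_eq_sq_iff_eq_or_eq_neg.mp h6 with h | h
          · exact r1 (h ▸ h4)
          · exact r2 (h ▸ h4))
  rw [hk, cnt_eq h2 hns, hm] at h1
  omega

theorem card_sqrt_add [Fintype F] {s : F} (h2 : (2 : F) ≠ 0) (hs : ¬ IsSquare s) (v : F) :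
    Nat.card {y : F // y ^ 2 = v} + Nat.card {y : F // y ^ 2 = s * v} = 2 := by
  have hF : ringChar F ≠ 2 := by
    intro h
    apply h2
    have := ringChar.Nat.cast_ringChar (R := F)
    rw [h] at this
    exact_mod_cast this
  have key : ∀ v : F, (Nat.card {y : F // y ^ 2 = v} : ℤ) = quadraticChar F v + 1 := by
    intro v
    rw [← quadraticChar_card_sqrts hF v]
    congr 1
    rw [Nat.card_eq_fintype_card, Set.toFinset_card]
    rfl
  have e2 := (quadraticChar_neg_one_iff_not_isSquare (F := F)).mpr hs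
  have h1 := key v
  have h3 := key (s * v)
  rw [map_mul, e2] at h3
  have : (Nat.card {y : F // y ^ 2 = v} : ℤ) + Nat.card {y : F // y ^ 2 = s * v} = 2 := by
    rw [h1, h3]
    ring
  exact_mod_cast this

theorem card_curve [Fintype F] (f : F → F) :
    Nat.card {P : F × F // P.2 ^ 2 = f P.1} = ∑ x : F, Nat.card {y : F // y ^ 2 = f x} := by
  rw [Nat.card_congr (Equiv.subtypeProdEquivSigmaSubtype fun x y : F => y ^ 2 = f x)]
  rw [Nat.card_sigma]

/-- the sum of the point counts of a curve and a twist by a nonsquare -/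
theorem cnt_twist [Fintype F] {a b s : F} (h2 : (2 : F) ≠ 0) (hs : ¬ IsSquare s) :
    cnt a b + cnt (s ^ 2 * a) (s ^ 3 * b) = 2 * Fintype.card F + 2 := by
  have hs0 : s ≠ 0 := nsq_ne_zero hs
  have h1 : Nat.card {P : F × F // P.2 ^ 2 = P.1 ^ 3 + s ^ 2 * a * P.1 + s ^ 3 * b} =
      Nat.card {P : F × F // P.2 ^ 2 = s * (P.1 ^ 3 + a * P.1 + b)} := by
    refine Nat.card_congr ⟨fun P => ⟨(P.1.1 / s, P.1.2 / s), ?_⟩,
      fun P => ⟨(P.1.1 * s, P.1.2 * s), ?_⟩, ?_, ?_⟩
    · have := P.2
      simp only at this ⊢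
      rw [div_pow, this]
      field_simp
    · have := P.2
      simp only at this ⊢
      rw [mul_pow, this]
      ring
    · intro P
      apply Subtype.ext
      apply Prod.ext
      · simp only; field_simp
      · simp only; field_simp
    · intro P
      apply Subtype.ext
      apply Prod.ext
      · simp only; field_simp
      · simp only; field_simp
  unfold cnt
  rw [h1, card_curve fun x => x ^ 3 + a * x + b, card_curve fun x => s * (x ^ 3 + a * x + b)]
  have h3 : ∑ x : F, Nat.card {y : F // y ^ 2 = x ^ 3 + a * x + b} +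
      ∑ x : F, Nat.card {y : F // y ^ 2 = s * (x ^ 3 + a * x + b)} = 2 * Fintype.card F := by
    rw [← Finset.sum_add_distrib, Finset.sum_congr rfl fun x _ => card_sqrt_add h2 hs _]
    simp [mul_comm]
  omega

/-- twist by a square -/
theorem cnt_twist_sq {a b s : F} (hs : IsSquare s) (hs0 : s ≠ 0) :
    cnt (s ^ 2 * a) (s ^ 3 * b) = cnt a b := by
  obtain ⟨v, rfl⟩ := hs
  have hv : v ≠ 0 := by
    rintro rfl
    exact hs0 (by ring)
  unfold cnt
  congr 1
  refine Nat.card_congr ⟨fun P => ⟨(P.1.1 / (v * v), P.1.2 / v ^ 3), ?_⟩,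
    fun P => ⟨(P.1.1 * (v * v), P.1.2 * v ^ 3), ?_⟩, ?_, ?_⟩
  · have := P.2
    simp only at this ⊢
    rw [div_pow, this]
    field_simp
  · have := P.2
    simp only at this ⊢
    rw [mul_pow, this]
    ring
  · intro P
    apply Subtype.ext
    apply Prod.ext
    · simp only; field_simp
    · simp only; field_simp
  · intro P
    apply Subtype.ext
    apply Prod.ext
    · simp only; field_simp
    · simp only; field_simp

end curve

end Pool.Agent.Lib.IsoFib
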